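import Pool.Agent.Helper56.HLA.Half.RegB2

/-!
The analytic condition holds whenever no weight exceeds half of the sum.
-/

set_option autoImplicit false

namespace Pool.Agent.Helper56.HLA.Half

open Pool.Agent.Helper6.HL Pool.Agent.Helper66.HL Pool.Agent.Helper56.HLA Finset

variable {q : ℕ} {x : Fin q → ℝ}

theorem cond_half (h : Norm x) (h2 : ∀ i, 2 * x i ≤ ∑ l, x l) : Cond x := by
  have hne : (univ : Finset (Fin q)).Nonempty := by
    by_contra hcon
    rw [not_nonempty_iff_eq_empty] at hcon
    have := h.pp_sum
    rw [hcon, sum_empty] at this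
    exact zero_ne_one this
  obtain ⟨i, _, hi⟩ := exists_max_image univ x hne
  have hmax : ∀ j, x j ≤ x i := fun j => hi j (mem_univ j)
  have hS : ∑ l, x l = 1 + ta x := by rw [ta]; ring
  have haτ := ta_le h hmax
  have hτ0 := ta_nonneg h
  have h2i : 2 * (x i - ta x) ≤ 1 - ta x := by
    have := h2 i
    rw [hS] at this
    linarith
  refine cond_of h (fun j => ?_) ?_
  · have := hmax j
    linarith
  · rcases le_total (ta x) (1 / 2) with c1 | c1
    · exact regA1 h i hmax h2i c1
    · rcases le_total (ta x) (29 / 50) with c2 | c2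
      · exact regA2 h i hmax h2i c1 c2
      · have hne2 : (univ.erase i : Finset (Fin q)).Nonempty := by
          by_contra hcon
          rw [not_nonempty_iff_eq_empty] at hcon
          have e1 := h.pp_sum
          rw [← add_sum_erase univ _ (mem_univ i), hcon, sum_empty, add_zero] at e1
          exact (h.pp_lt_one i).ne e1
        obtain ⟨j, hj, hj2⟩ := exists_max_image (univ.erase i) x hne2
        have hij : i ≠ j := (mem_erase.1 hj).1.symm
        have hj3 : ∀ l, l ≠ i → x l ≤ x j := fun l hl => hj2 l (mem_erase.2 ⟨hl, mem_univ l⟩)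
        rcases le_total (ta x) (7 / 10) with c3 | c3
        · exact regB1 h hij hmax hj3 h2i c2 c3
        · exact regB2 h hij hmax hj3 h2i c3

end Pool.Agent.Helper56.HLA.Half
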