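import Mathlib

/-!
Bounds for `F(s,t) = log(1 + s t) + 2 log(1 - t) + (2 - s) t + 2 s t^2`.
-/

set_option autoImplicit false

namespace Pool.Agent.Helper56.HLA.Half

open Real

theorem ge_of_deriv {G G' : ℝ → ℝ} {b : ℝ} (hb : 0 ≤ b)
    (hd : ∀ y ∈ Set.Icc 0 b, HasDerivAt G (G' y) y) (hn : ∀ y ∈ Set.Icc 0 b, 0 ≤ G' y) :
    G 0 ≤ G b := by
  refine monotoneOn_of_deriv_nonneg (convex_Icc 0 b)
    (fun y hy => (hd y hy).continuousAt.continuousWithinAt)
    (fun y hy => (hd y (interior_subset hy)).differentiableAt.differentiableWithinAt)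
    (fun y hy => ?_) (Set.left_mem_Icc.2 hb) (Set.right_mem_Icc.2 hb) hb
  rw [(hd y (interior_subset hy)).deriv]
  exact hn y (interior_subset hy)

/-- the function -/
noncomputable def FF (s t : ℝ) : ℝ := log (1 + s * t) + 2 * log (1 - t) + (2 - s) * t + 2 * s * t ^ 2

theorem FF_zero (s : ℝ) : FF s 0 = 0 := by simp [FF]

theorem hasDerivAt_FF {s t : ℝ} (h1 : 0 < 1 + s * t) (h2 : 0 < 1 - t) :
    HasDerivAt (FF s) (s / (1 + s * t) - 2 / (1 - t) + (2 - s) + 4 * s * t) t := by
  have e1 : HasDerivAt (fun y : ℝ => log (1 + s * y)) (s / (1 + s * t)) t := by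
    have := ((hasDerivAt_id t).const_mul s).const_add 1
    have := this.log h1.ne'
    simpa using this
  have e2 : HasDerivAt (fun y : ℝ => log (1 - y)) (-1 / (1 - t)) t := by
    have := (hasDerivAt_id t).const_sub 1
    have := this.log h2.ne'
    simpa using this
  have e3 : HasDerivAt (fun y : ℝ => (2 - s) * y) (2 - s) t := by
    simpa using (hasDerivAt_id t).const_mul (2 - s)
  have e4 : HasDerivAt (fun y : ℝ => 2 * s * y ^ 2) (2 * s * (2 * t)) t := by
    simpa using (hasDerivAt_pow 2 t).const_mul (2 * s)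
  have := ((e1.add (e2.const_mul 2)).add e3).add e4
  refine this.congr_deriv ?_
  ring

/-- the coefficients -/
noncomputable def c2 (s : ℝ) : ℝ := 2 * s - 1 - s ^ 2 / 2
noncomputable def c3 (s : ℝ) : ℝ := (2 - s ^ 3) / 3
noncomputable def c4 (s : ℝ) : ℝ := (2 + s ^ 4) / 4

theorem FF_neg {s w : ℝ} (hs : 0 < s) (hs1 : s ≤ 1) (hw : 0 ≤ w) (hsw : s * (1 + w) ≤ 1) :
    w ^ 2 * (c2 s + c3 s * w - c4 s * w ^ 2) ≤ FF s (-w) := by
  have key := ge_of_deriv (G := fun y => FF s (-y) - y ^ 2 * (c2 s + c3 s * y - c4 s * y ^ 2))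
    (G' := fun y => y ^ 4 * (2 / (1 + y) - s ^ 5 / (1 - s * y))) hw ?_ ?_
  · simp [FF_zero] at key
    linarith
  · intro y hy
    have hy0 := hy.1
    have hsy : s * (1 + y) ≤ 1 :=
      (mul_le_mul_of_nonneg_left (by linarith [hy.2]) hs.le).trans hsw
    have h1 : 0 < 1 - s * y := by nlinarith
    have h2 : 0 < 1 + y := by linarith
    have e1 := hasDerivAt_FF (s := s) (t := -y) (by linarith) (by linarith)
    have e2 := HasDerivAt.comp y e1 (hasDerivAt_neg y)
    have e3 : HasDerivAt (fun y : ℝ => y ^ 2 * (c2 s + c3 s * y - c4 s * y ^ 2))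
        (2 * c2 s * y + 3 * c3 s * y ^ 2 - 4 * c4 s * y ^ 3) y := by
      have f1 := (hasDerivAt_pow 2 y).const_mul (c2 s)
      have f2 := (hasDerivAt_pow 3 y).const_mul (c3 s)
      have f3 := (hasDerivAt_pow 4 y).const_mul (c4 s)
      have f4 := (f1.add f2).sub f3
      refine (f4.congr_deriv ?_).congr_of_eventuallyEq ?_
      · push_cast; ring
      · refine Filter.Eventually.of_forall fun z => ?_
        simp; ring
    refine (e2.sub e3).congr_deriv ?_
    have h3 : 1 + s * -y = 1 - s * y := by ring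
    have h4 : 1 - -y = 1 + y := by ring
    rw [h3, h4, c2, c3, c4]
    field_simp
    ring
  · intro y hy
    have hy0 := hy.1
    have hsy : s * (1 + y) ≤ 1 :=
      (mul_le_mul_of_nonneg_left (by linarith [hy.2]) hs.le).trans hsw
    have h1 : 0 < 1 - s * y := by nlinarith
    have h2 : 0 < 1 + y := by linarith
    have h3 : s ^ 5 / (1 - s * y) ≤ 2 / (1 + y) := by
      rw [div_le_div_iff₀ h1 h2]
      have f1 : s ^ 4 ≤ s := by
        have : s ^ 4 ≤ s ^ 1 := pow_le_pow_of_le_one hs.le hs1 (by norm_num)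
        simpa using this
      have f2 : s ^ 5 * (1 + y) ≤ s ^ 4 := by
        have := mul_le_mul_of_nonneg_left hsy (by positivity : 0 ≤ s ^ 4)
        linarith
      linarith
    have := sub_nonneg.2 h3
    positivity

theorem FF_pos {s t g : ℝ} (hs : 0 < s) (ht : 0 ≤ t) (ht1 : t < 1) (hg : 2 ≤ 5 * g * (1 - t)) :
    t ^ 2 * (c2 s - c3 s * t - c4 s * t ^ 2 - g * t ^ 3) ≤ FF s t := by
  have hg0 : 0 < g := by
    by_contra hcon
    have h1 : 0 < 1 - t := by linarith
    have : 5 * g * (1 - t) ≤ 0 := mul_nonpos_of_nonpos_of_nonneg (by linarith) h1.le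
    linarith
  have key := ge_of_deriv
    (G := fun y => FF s y - y ^ 2 * (c2 s - c3 s * y - c4 s * y ^ 2 - g * y ^ 3))
    (G' := fun y => y ^ 4 * (5 * g - 2 / (1 - y) + s ^ 5 / (1 + s * y))) ht ?_ ?_
  · simp [FF_zero] at key
    linarith
  · intro y hy
    have hy0 := hy.1
    have h1 : 0 < 1 + s * y := by positivity
    have h2 : 0 < 1 - y := by linarith [hy.2]
    have e1 := hasDerivAt_FF (s := s) (t := y) h1 h2
    have e3 : HasDerivAt (fun y : ℝ => y ^ 2 * (c2 s - c3 s * y - c4 s * y ^ 2 - g * y ^ 3))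
        (2 * c2 s * y - 3 * c3 s * y ^ 2 - 4 * c4 s * y ^ 3 - 5 * g * y ^ 4) y := by
      have f1 := (hasDerivAt_pow 2 y).const_mul (c2 s)
      have f2 := (hasDerivAt_pow 3 y).const_mul (c3 s)
      have f3 := (hasDerivAt_pow 4 y).const_mul (c4 s)
      have f5 := (hasDerivAt_pow 5 y).const_mul g
      have f4 := ((f1.sub f2).sub f3).sub f5
      refine (f4.congr_deriv ?_).congr_of_eventuallyEq ?_
      · push_cast; ring
      · refine Filter.Eventually.of_forall fun z => ?_
        simp; ring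
    refine (e1.sub e3).congr_deriv ?_
    rw [c2, c3, c4]
    field_simp
    ring
  · intro y hy
    have hy0 := hy.1
    have h1 : 0 < 1 + s * y := by positivity
    have h2 : 0 < 1 - y := by linarith [hy.2]
    have h3 : 2 / (1 - y) ≤ 5 * g := by
      rw [div_le_iff₀ h2]
      refine hg.trans (mul_le_mul_of_nonneg_left (by linarith [hy.2]) (by positivity))
    have h4 : 0 ≤ s ^ 5 / (1 + s * y) := by positivity
    have : 0 ≤ 5 * g - 2 / (1 - y) + s ^ 5 / (1 + s * y) := by linarith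
    positivity

theorem FF_far {s w : ℝ} (hs : 0 < s) (hw : 0 ≤ w) (hsw : s * (1 + w) ≤ 1) :
    c2 s * w ^ 2 + s * (2 - s) / 3 * w ^ 3 ≤ FF s (-w) := by
  have key := ge_of_deriv (G := fun y => FF s (-y) - (c2 s * y ^ 2 + s * (2 - s) / 3 * y ^ 3))
    (G' := fun y => y ^ 2 * (2 / (1 + y) - 2 * s + s ^ 2 - s ^ 3 / (1 - s * y))) hw ?_ ?_
  · simp [FF_zero] at key
    linarith
  · intro y hy
    have hy0 := hy.1
    have hsy : s * (1 + y) ≤ 1 :=
      (mul_le_mul_of_nonneg_left (by linarith [hy.2]) hs.le).trans hsw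
    have h1 : 0 < 1 - s * y := by nlinarith
    have h2 : 0 < 1 + y := by linarith
    have e1 := hasDerivAt_FF (s := s) (t := -y) (by linarith) (by linarith)
    have e2 := HasDerivAt.comp y e1 (hasDerivAt_neg y)
    have e3 : HasDerivAt (fun y : ℝ => c2 s * y ^ 2 + s * (2 - s) / 3 * y ^ 3)
        (2 * c2 s * y + s * (2 - s) * y ^ 2) y := by
      have f1 := (hasDerivAt_pow 2 y).const_mul (c2 s)
      have f2 := (hasDerivAt_pow 3 y).const_mul (s * (2 - s) / 3)
      refine (f1.add f2).congr_deriv ?_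
      push_cast; ring
    refine (e2.sub e3).congr_deriv ?_
    have h3 : 1 + s * -y = 1 - s * y := by ring
    have h4 : 1 - -y = 1 + y := by ring
    rw [h3, h4, c2]
    field_simp
    ring
  · intro y hy
    have hy0 := hy.1
    have hsy : s * (1 + y) ≤ 1 :=
      (mul_le_mul_of_nonneg_left (by linarith [hy.2]) hs.le).trans hsw
    have h0 : s ≤ 1 - s * y := by linarith
    have h1 : 0 < 1 - s * y := by linarith
    have h2 : 0 < 1 + y := by linarith
    have h3 : s ^ 3 / (1 - s * y) ≤ s ^ 2 := by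
      rw [div_le_iff₀ h1]
      have := mul_le_mul_of_nonneg_left h0 (by positivity : 0 ≤ s ^ 2)
      linarith
    have h4 : 2 * s ≤ 2 / (1 + y) := by
      rw [le_div_iff₀ h2]; linarith
    have : 0 ≤ 2 / (1 + y) - 2 * s + s ^ 2 - s ^ 3 / (1 - s * y) := by linarith
    positivity

end Pool.Agent.Helper56.HLA.Half
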