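import Pool.Agent.Helper56.HLA.Half.Red

/-!
Moment bounds.
-/

set_option autoImplicit false

namespace Pool.Agent.Helper56.HLA.Half

open Pool.Agent.Helper6.HL Pool.Agent.Helper66.HL Pool.Agent.Helper56.HLA Finset

variable {q : ℕ} {x : Fin q → ℝ}

theorem ta_eq (h : Norm x) : ta x = ∑ j, pp x j * x j := by
  have h1 : ∑ j, pp x j * x j = ∑ j, (1 + x j) * pp x j - ∑ j, pp x j := by
    rw [← sum_sub_distrib]
    exact sum_congr rfl fun i _ => by ring
  rw [h1, h.pp_sum, sum_congr rfl fun i _ => h.mul_pp i, ta]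

theorem ta_nonneg (h : Norm x) : 0 ≤ ta x := by
  rw [ta_eq h]
  exact sum_nonneg fun i _ => mul_nonneg (h.pp_nonneg i) (h.nonneg i)

theorem ta_le (h : Norm x) {a : ℝ} (ha : ∀ i, x i ≤ a) : ta x ≤ a := by
  rw [ta_eq h]
  have : ∑ j, pp x j * x j ≤ ∑ j, pp x j * a :=
    sum_le_sum fun i _ => mul_le_mul_of_nonneg_left (ha i) (h.pp_nonneg i)
  rw [← sum_mul, h.pp_sum, one_mul] at this
  exact this

/-- averages of affine functions -/
theorem sum_aff (h : Norm x) (c b : ℝ) : ∑ j, pp x j * (c + b * (x j - ta x)) = c := by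
  have h1 : ∑ j, pp x j * (c + b * (x j - ta x)) =
      c * ∑ j, pp x j + b * ∑ j, pp x j * (x j - ta x) := by
    rw [mul_sum, mul_sum, ← sum_add_distrib]
    exact sum_congr rfl fun i _ => by ring
  rw [h1, h.pp_sum, sum_pp_t h]; ring

theorem sum_le_aff (h : Norm x) {f : Fin q → ℝ} {c b : ℝ}
    (hf : ∀ j, f j ≤ c + b * (x j - ta x)) : ∑ j, pp x j * f j ≤ c := by
  refine (sum_le_sum fun j _ => mul_le_mul_of_nonneg_left (hf j) (h.pp_nonneg j)).trans ?_
  rw [sum_aff h]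

theorem aff_le_sum (h : Norm x) {f : Fin q → ℝ} {c b : ℝ}
    (hf : ∀ j, c + b * (x j - ta x) ≤ f j) : c ≤ ∑ j, pp x j * f j := by
  refine le_trans ?_ (sum_le_sum fun j _ => mul_le_mul_of_nonneg_left (hf j) (h.pp_nonneg j))
  rw [sum_aff h]

theorem dl_nonneg (h : Norm x) : 0 ≤ dl x := by
  refine aff_le_sum h (b := ta x) fun j => ?_
  nlinarith [sq_nonneg (x j - ta x)]

theorem dl_le (h : Norm x) {a : ℝ} (ha : ∀ i, x i ≤ a) : dl x ≤ ta x * (a - ta x) := by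
  refine sum_le_aff h (b := a - ta x) fun j => ?_
  nlinarith [mul_nonneg (h.nonneg j) (sub_nonneg.2 (ha j))]

theorem mm_nonneg (h : Norm x) : 0 ≤ mm x := by
  refine aff_le_sum h (b := ta x ^ 2) fun j => ?_
  nlinarith [mul_nonneg (add_nonneg (h.nonneg j) (ta_nonneg h)) (sq_nonneg (x j - ta x))]

theorem mm_le (h : Norm x) {a : ℝ} (ha : ∀ i, x i ≤ a) : mm x ≤ ta x * (a * (a - ta x)) := by
  have hta := ta_le h ha
  have h0 := ta_nonneg h
  refine sum_le_aff h (b := a * (a - ta x)) fun j => ?_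
  have h1 := h.nonneg j
  have h2 := ha j
  -- `x (x - τ) ≤ a (a - τ)`
  have h3 : x j * (x j - ta x) ≤ a * (a - ta x) := by
    rcases le_total (x j) (ta x) with h4 | h4
    · have e1 : x j * (x j - ta x) ≤ 0 := mul_nonpos_of_nonneg_of_nonpos h1 (by linarith)
      have e2 : 0 ≤ a * (a - ta x) := mul_nonneg (by linarith) (by linarith)
      linarith
    · exact mul_le_mul h2 (by linarith) (by linarith) (by linarith)
  have h4 := mul_le_mul_of_nonneg_left h3 h1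
  nlinarith

theorem v_le (h : Norm x) (i : Fin q) : x i * (x i - ta x) ≤ ta x := by
  have h1 : pp x i * x i ≤ ta x := by
    rw [ta_eq h]
    exact single_le_sum (f := fun j => pp x j * x j)
      (fun j _ => mul_nonneg (h.pp_nonneg j) (h.nonneg j)) (mem_univ i)
  have h2 := mul_le_mul_of_nonneg_left h1 (h.pos i).le
  rw [← mul_assoc, h.mul_pp] at h2
  linarith

/-- the lower bound for `a δ + m` -/
theorem mom_lower (h : Norm x) (i : Fin q) (ha : ∀ j, x j ≤ x i) :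
    x i * (x i - ta x) ^ 2 * (2 * x i + (ta x - x i * (x i - ta x))) ≤ x i * dl x + mm x := by
  set a := x i with hadef
  have h0 := ta_nonneg h
  have hta := ta_le h ha
  set τ := ta x with hτ
  set v := a * (a - τ) with hv
  have hvτ : v ≤ τ := v_le h i
  have e1 : a * dl x + mm x = ∑ j, pp x j * ((-(v ^ 2 * (a + 2 * τ - 2 * v)) +
      (-2 * a * v + a * τ + (τ - v) ^ 2 - 2 * v * (τ - v)) * (x j - τ)) +
      (x j - τ + v) ^ 2 * (a + τ + x j - 2 * v)) := by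
    rw [dl, mm, mul_sum, ← sum_add_distrib]
    refine sum_congr rfl fun j _ => ?_
    rw [← hτ]; ring
  have e2 : a * dl x + mm x = -(v ^ 2 * (a + 2 * τ - 2 * v)) +
      ∑ j, pp x j * ((x j - τ + v) ^ 2 * (a + τ + x j - 2 * v)) := by
    rw [e1, sum_congr rfl fun j _ => mul_add (pp x j) _ _, sum_add_distrib, hτ, sum_aff h]
  have e3 : pp x i * ((x i - τ + v) ^ 2 * (a + τ + x i - 2 * v)) ≤
      ∑ j, pp x j * ((x j - τ + v) ^ 2 * (a + τ + x j - 2 * v)) :=
    single_le_sum (f := fun j => pp x j * ((x j - τ + v) ^ 2 * (a + τ + x j - 2 * v)))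
      (fun j _ => mul_nonneg (h.pp_nonneg j) (mul_nonneg (sq_nonneg _)
        (by have := h.nonneg j; linarith))) (mem_univ i)
  have e4 : pp x i * ((x i - τ + v) ^ 2 * (a + τ + x i - 2 * v)) =
      a * (a - τ) ^ 2 * ((1 + a) * (a + τ + a - 2 * v)) := by
    have f1 : x i - τ + v = (1 + a) * (a - τ) := by rw [← hadef, hv]; ring
    have f2 := h.mul_pp i
    rw [← hadef] at f2
    rw [f1, ← hadef]
    have f3 : pp x i * (((1 + a) * (a - τ)) ^ 2 * (a + τ + a - 2 * v)) =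
        ((1 + a) * pp x i) * ((a - τ) ^ 2 * ((1 + a) * (a + τ + a - 2 * v))) := by ring
    rw [f3, f2]; ring
  rw [e4] at e3
  rw [e2]
  have e5 : a * (a - τ) ^ 2 * ((1 + a) * (a + τ + a - 2 * v)) - v ^ 2 * (a + 2 * τ - 2 * v) =
      a * (a - τ) ^ 2 * (2 * a + (τ - v)) := by
    rw [hv]; ring
  linarith

/-- the factor of `ff` -/
noncomputable def kk (x : Fin q → ℝ) (i : Fin q) : ℝ := mm x + dl x * x i - x i ^ 3

theorem ff_eq (i : Fin q) : ff x i = (x i - ta x) * kk x i := rfl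

theorem kk_lower (h : Norm x) (i : Fin q) {b : ℝ} (hb : x i ≤ b) : -(b ^ 3) ≤ kk x i := by
  have h1 : x i ^ 3 ≤ b ^ 3 := pow_le_pow_left₀ (h.nonneg i) hb 3
  have h2 := mul_nonneg (dl_nonneg h) (h.nonneg i)
  have h3 := mm_nonneg h
  rw [kk]; linarith

theorem kk_upper (h : Norm x) (i : Fin q) {a b : ℝ} (ha : ∀ j, x j ≤ a) (hb : x i ≤ b) :
    kk x i ≤ ta x * (a - ta x) * (a + b) := by
  have h1 := pow_nonneg (h.nonneg i) 3
  have h2 := mul_le_mul (dl_le h ha) hb (h.nonneg i)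
    (mul_nonneg (ta_nonneg h) (sub_nonneg.2 (ta_le h ha)))
  have h3 := mm_le h ha
  rw [kk]; linarith

theorem sq_le_of {k m : ℝ} (h1 : -m ≤ k) (h2 : k ≤ m) : k ^ 2 ≤ m ^ 2 := by
  nlinarith

/-- all terms -/
theorem kk_sq (h : Norm x) {a : ℝ} (ha : ∀ j, x j ≤ a) (i : Fin q) : kk x i ^ 2 ≤ (a ^ 3) ^ 2 := by
  refine sq_le_of (kk_lower h i (ha i)) ((kk_upper h i ha (ha i)).trans ?_)
  have h0 := ta_nonneg h
  have h1 := ta_le h ha
  nlinarith [mul_nonneg (by linarith : 0 ≤ a) (sq_nonneg (a - 2 * ta x)),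
    mul_nonneg (by linarith : 0 ≤ a) (sq_nonneg a)]

/-- the largest term -/
theorem kk_sq_max (h : Norm x) (i : Fin q) (ha : ∀ j, x j ≤ x i) (ha2 : x i ≤ 2) :
    kk x i ^ 2 ≤ (x i * (x i ^ 2 - 3 * ta x * (x i - ta x) ^ 2)) ^ 2 := by
  have h0 := ta_nonneg h
  have h1 := ta_le h ha
  have h2 := mom_lower h i ha
  have h3 := kk_upper h i ha le_rfl
  have h5 := h.nonneg i
  set a := x i
  set τ := ta x
  have h4 : kk x i = mm x + dl x * a - a ^ 3 := rfl
  -- `kk ≤ 0`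
  have h6 : kk x i ≤ 0 := by
    have e1 := mm_le h ha
    have e2 := mul_le_mul_of_nonneg_right (dl_le h ha) h5
    rw [h4]
    nlinarith [mul_nonneg h5 (sq_nonneg (a - 2 * τ)), mul_nonneg h5 (sq_nonneg a)]
  have h7 : a * (a - τ) ^ 2 * (3 * τ) ≤ a * (a - τ) ^ 2 * (2 * a + (τ - a * (a - τ))) := by
    refine mul_le_mul_of_nonneg_left ?_ (mul_nonneg h5 (sq_nonneg _))
    nlinarith [mul_nonneg (sub_nonneg.2 ha2) (sub_nonneg.2 h1)]
  have h8 : -kk x i ≤ a * (a ^ 2 - 3 * τ * (a - τ) ^ 2) := by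
    rw [h4]; nlinarith
  have h9 : 0 ≤ -kk x i := by linarith
  have := pow_le_pow_left₀ h9 h8 2
  rwa [neg_sq] at this

/-- the small terms -/
theorem kk_sq_small (h : Norm x) {a b M : ℝ} (ha : ∀ j, x j ≤ a) (i : Fin q) (hb : x i ≤ b)
    (h1 : b ^ 3 ≤ M) (h2 : ta x * (a - ta x) * (a + b) ≤ M) : kk x i ^ 2 ≤ M ^ 2 := by
  refine sq_le_of ?_ ((kk_upper h i ha hb).trans h2)
  have := kk_lower h i hb
  linarith

end Pool.Agent.Helper56.HLA.Half
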