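import Pool.Agent.Helper56.HLA.General
import Pool.Agent.Helper56.HLA.Half.Log

/-!
Reduction of the analytic condition to a sum of one-variable terms.
-/

set_option autoImplicit false

namespace Pool.Agent.Helper56.HLA.Half

open Pool.Agent.Helper6.HL Pool.Agent.Helper66.HL Pool.Agent.Helper56.HLA Finset

variable {q : ℕ} {x : Fin q → ℝ}

/-- `τ = ∑ x - 1` -/
noncomputable def ta (x : Fin q → ℝ) : ℝ := ∑ j, x j - 1

/-- second moment -/
noncomputable def dl (x : Fin q → ℝ) : ℝ := ∑ j, pp x j * ((x j - ta x) * x j)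

/-- third moment -/
noncomputable def mm (x : Fin q → ℝ) : ℝ := ∑ j, pp x j * ((x j - ta x) * x j ^ 2)

/-- the non-constant part of `P^3 u` -/
noncomputable def ff (x : Fin q → ℝ) (i : Fin q) : ℝ :=
  (x i - ta x) * (mm x + dl x * x i - x i ^ 3)

theorem sum_pp_t (h : Norm x) : ∑ j, pp x j * (x j - ta x) = 0 := by
  have h1 : ∑ j, pp x j * (x j - ta x) = ∑ j, (1 + x j) * pp x j - (1 + ta x) * ∑ j, pp x j := by
    rw [mul_sum, ← sum_sub_distrib]
    exact sum_congr rfl fun i _ => by ring
  rw [h1, h.pp_sum, sum_congr rfl fun i _ => h.mul_pp i, ta]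
  ring

theorem P_const_add (h : Norm x) (c : ℝ) (f : Fin q → ℝ) (i : Fin q) :
    P x (fun j => c + f j) i = c + P x f i := by
  have h1 : (fun j => c + f j) = fun j => c * (1 : ℝ) + f j := by
    funext j; ring
  rw [h1, P_add, P_smul, P_one h, mul_one]

theorem P1 (h : Norm x) (i : Fin q) :
    P x (uu x) i = (1 + ta x - 1 / HH x) + -((x i - ta x) * x i) := by
  have h1 := Pg h i
  rw [Pg_eq h] at h1
  have h2 : ∑ j, x j = 1 + ta x := by rw [ta]; ring
  rw [h2] at h1
  linarith

theorem P2 (h : Norm x) (i : Fin q) :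
    P x (P x (uu x)) i = (1 + ta x - 1 / HH x - (1 + ta x) * dl x) +
      (x i - ta x) * (x i ^ 2 - dl x) := by
  have h1 : P x (uu x) = fun i => (1 + ta x - 1 / HH x) + -((x i - ta x) * x i) := by
    funext i; exact P1 h i
  have h2 : ∑ j, pp x j * -((x j - ta x) * x j) = -dl x := by
    rw [dl, ← sum_neg_distrib]
    exact sum_congr rfl fun i _ => by ring
  rw [h1, P_const_add h, P, h2]
  ring

theorem P3 (h : Norm x) : ∃ C : ℝ, ∀ i, ((P x)^[3] (uu x)) i = C + ff x i := by
  refine ⟨(1 + ta x - 1 / HH x - (1 + ta x) * dl x) + (1 + ta x) * mm x, fun i => ?_⟩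
  have h1 : P x (P x (uu x)) = fun i => (1 + ta x - 1 / HH x - (1 + ta x) * dl x) +
      (x i - ta x) * (x i ^ 2 - dl x) := by
    funext i; exact P2 h i
  have h2 : ∑ j, pp x j * ((x j - ta x) * (x j ^ 2 - dl x)) = mm x := by
    have e1 : ∑ j, pp x j * ((x j - ta x) * (x j ^ 2 - dl x)) =
        ∑ j, pp x j * ((x j - ta x) * x j ^ 2) - dl x * ∑ j, pp x j * (x j - ta x) := by
      rw [mul_sum, ← sum_sub_distrib]
      exact sum_congr rfl fun i _ => by ring
    rw [e1, sum_pp_t h, mm]; ring
  show P x (P x (P x (uu x))) i = _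
  rw [h1, P_const_add h, P, h2, ff]
  ring

theorem E_P3_le (h : Norm x) :
    E x (fun i => ((P x)^[3] (uu x)) i * ((P x)^[3] (uu x)) i) ≤
      E x (fun i => ff x i ^ 2) := by
  obtain ⟨C, hC⟩ := P3 h
  have h0 := E_iter_zero h (E_uu h) 3
  have h1 : E x (fun i => ff x i ^ 2) = E x (fun i => ((P x)^[3] (uu x)) i * ((P x)^[3] (uu x)) i)
      - 2 * C * E x ((P x)^[3] (uu x)) + C ^ 2 * HH x := by
    rw [← E_smul, ← E_const, ← E_sub, ← E_add]
    congr 1
    funext i
    rw [hC]; ring
  rw [h1, h0]
  have := mul_nonneg (sq_nonneg C) (HH_pos h).le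
  linarith

theorem cond_of (h : Norm x) (hlt : ∀ i, x i - ta x < 1)
    (hmain : HH x ^ 2 * E x (fun i => ff x i ^ 2) ≤
      2 * E x (fun i => FF (1 / (1 + ta x)) (x i - ta x))) : Cond x := by
  have hH := HH_pos h
  have hS : ∑ j, x j = 1 + ta x := by rw [ta]; ring
  have hS0 : 0 < 1 + ta x := by
    rw [← hS]
    rcases (sum_nonneg fun i (_ : i ∈ (univ : Finset (Fin q))) => h.nonneg i).lt_or_eq with h0 | h0
    · exact h0
    · exfalso
      have h1 := (sum_eq_zero_iff_of_nonneg fun i _ => h.nonneg i).1 h0.symm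
      have h2 : ∑ i, pp x i = 0 := sum_eq_zero fun i hi => by rw [pp, h1 i hi, zero_div]
      rw [h.pp_sum] at h2
      exact one_ne_zero h2
  set S := 1 + ta x with hSdef
  set s := 1 / S with hs
  have hs0 : 0 < s := by positivity
  have hsS : s * S = 1 := by rw [hs]; field_simp
  -- first moments under rho
  have m1 : HH x + s * E x (fun i => x i - ta x) = s := by
    have e1 : ∀ i, rho x i + s * (rho x i * (x i - ta x)) = s * pp x i := by
      intro i
      rw [← h.rho_mul]
      have : s * (rho x i * (x i - ta x)) = s * (rho x i * (1 + x i)) - s * S * rho x i := by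
        rw [hSdef]; ring
      rw [this, hsS]; ring
    have e2 : HH x + s * E x (fun i => x i - ta x) = ∑ i, s * pp x i := by
      rw [HH, E, mul_sum, ← sum_add_distrib]
      exact sum_congr rfl fun i _ => e1 i
    rw [e2, ← mul_sum, h.pp_sum, mul_one]
  have m2 : E x (fun i => x i - ta x) + s * E x (fun i => (x i - ta x) ^ 2) = 0 := by
    have e1 : ∀ i, rho x i * (x i - ta x) + s * (rho x i * (x i - ta x) ^ 2) =
        s * (pp x i * (x i - ta x)) := by
      intro i
      rw [← h.rho_mul]
      have : s * (rho x i * (x i - ta x) ^ 2) = s * (rho x i * (1 + x i) * (x i - ta x)) -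
          s * S * (rho x i * (x i - ta x)) := by
        rw [hSdef]; ring
      rw [this, hsS]; ring
    have e2 : E x (fun i => x i - ta x) + s * E x (fun i => (x i - ta x) ^ 2) =
        ∑ i, s * (pp x i * (x i - ta x)) := by
      rw [E, E, mul_sum, ← sum_add_distrib]
      exact sum_congr rfl fun i _ => e1 i
    rw [e2, ← mul_sum, sum_pp_t h, mul_zero]
  -- the two logarithmic averages
  have L1 : 4 * LA x - 2 * LG x = 2 * (HH x * Real.log S) +
      2 * E x (fun i => FF s (x i - ta x)) - 2 * (HH x - s) := by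
    have e1 : ∀ i, 4 * Real.log (P x (fun j => 1 + x j) i) - 2 * Real.log (1 + x i) =
        2 * Real.log S + 2 * FF s (x i - ta x) - (2 * (2 - s) * (x i - ta x) +
          4 * s * (x i - ta x) ^ 2) := by
      intro i
      have f1 : 0 < 1 + x i := h.pos i
      have f2 : 0 < 1 - (x i - ta x) := by have := hlt i; linarith
      rw [Pg h, hS]
      have f3 : S - x i = 1 - (x i - ta x) := by rw [hSdef]; ring
      rw [f3, Real.log_mul f1.ne' f2.ne']
      have f4 : 1 + x i = S * (1 + s * (x i - ta x)) := by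
        have : S * (1 + s * (x i - ta x)) = S + (s * S) * (x i - ta x) := by ring
        rw [this, hsS, hSdef]; ring
      have f5 : 0 < 1 + s * (x i - ta x) := by
        by_contra hcon
        push Not at hcon
        have := mul_nonpos_of_nonneg_of_nonpos hS0.le hcon
        rw [← f4] at this
        linarith
      have f6 : Real.log (1 + x i) = Real.log S + Real.log (1 + s * (x i - ta x)) := by
        rw [← Real.log_mul hS0.ne' f5.ne', ← f4]
      rw [f6, FF]
      ring
    have e2 : 4 * LA x - 2 * LG x =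
        E x (fun i => 4 * Real.log (P x (fun j => 1 + x j) i) - 2 * Real.log (1 + x i)) := by
      rw [E_sub, E_smul, E_smul, LA, LG]
    rw [e2]
    have e3 : (fun i => 4 * Real.log (P x (fun j => 1 + x j) i) - 2 * Real.log (1 + x i)) =
        fun i => (2 * Real.log S + 2 * FF s (x i - ta x)) - ((2 * (2 - s)) * (x i - ta x) +
          (4 * s) * (x i - ta x) ^ 2) := by
      funext i
      rw [e1]
    rw [e3, E_sub, E_add, E_add, E_const, E_smul, E_smul, E_smul]
    have e4 : 2 * (2 - s) * E x (fun i => x i - ta x) + 4 * s * E x (fun i => (x i - ta x) ^ 2) =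
        2 * (HH x - s) := by
      have g1 : s * E x (fun i => (x i - ta x) ^ 2) = -E x (fun i => x i - ta x) := by linarith
      have g2 : s * E x (fun i => x i - ta x) = s - HH x := by linarith
      have g3 : 2 * (2 - s) * E x (fun i => x i - ta x) + 4 * s * E x (fun i => (x i - ta x) ^ 2) =
          4 * E x (fun i => x i - ta x) - 2 * (s * E x (fun i => x i - ta x)) +
          4 * (s * E x (fun i => (x i - ta x) ^ 2)) := by ring
      rw [g3, g1, g2]; ring
    rw [e4]; ring
  -- conclusion
  set L := E x (fun i => FF s (x i - ta x)) with hL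
  have hlogH : HH x - s ≤ HH x * Real.log (HH x * S) := by
    have hHS : 0 < HH x * S := mul_pos hH hS0
    have h1 := Real.one_sub_inv_le_log_of_pos hHS
    have h2 : HH x * (1 - (HH x * S)⁻¹) = HH x - s := by
      rw [hs]; field_simp
    rw [← h2]
    exact mul_le_mul_of_nonneg_left h1 hH.le
  have hexp : 2 * L / HH x ≤ 2 * Real.log (HH x) + (4 * LA x - 2 * LG x) / HH x := by
    rw [L1, Real.log_mul hH.ne' hS0.ne'] at *
    rw [div_le_iff₀ hH]
    have : (2 * Real.log (HH x) + (2 * (HH x * Real.log S) + 2 * L - 2 * (HH x - s)) / HH x) * HH x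
        = 2 * HH x * Real.log (HH x) + (2 * (HH x * Real.log S) + 2 * L - 2 * (HH x - s)) := by
      field_simp
    rw [this]
    linarith
  have hX : X x x (B.path 6) = 1 / HH x +
      E x (fun i => ((P x)^[3] (uu x)) i * ((P x)^[3] (uu x)) i) := X_path h 3 3
  rw [Cond, hX]
  have h1 := E_P3_le h
  set E3 := E x (fun i => ((P x)^[3] (uu x)) i * ((P x)^[3] (uu x)) i) with hE3
  have h2 : HH x * E3 ≤ 2 * L / HH x := by
    rw [le_div_iff₀ hH]
    have := mul_le_mul_of_nonneg_left h1 (sq_nonneg (HH x))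
    linarith
  have h3 : 1 + HH x * E3 ≤ Real.exp (2 * Real.log (HH x) + (4 * LA x - 2 * LG x) / HH x) := by
    have := Real.add_one_le_exp (2 * L / HH x)
    have := Real.exp_le_exp.2 hexp
    linarith
  rw [Real.exp_add, two_mul, Real.exp_add, Real.exp_log hH] at h3
  have h4 : 1 / HH x + E3 = (1 / HH x) * (1 + HH x * E3) := by field_simp
  rw [h4]
  refine (mul_le_mul_of_nonneg_left h3 (by positivity)).trans (le_of_eq ?_)
  field_simp

end Pool.Agent.Helper56.HLA.Half
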