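import Pool.Agent.Helper56.HLA.Half.Mom

/-!
Region A, abstract form: the tangent line argument.
-/

set_option autoImplicit false

namespace Pool.Agent.Helper56.HLA.Half

open Pool.Agent.Helper6.HL Pool.Agent.Helper66.HL Pool.Agent.Helper56.HLA Finset

variable {q : ℕ} {x : Fin q → ℝ}

/-- tangent inequality, `w ≥ 0` -/
theorem tan_neg {s v w τ b2 b3 b4 : ℝ} (hs : 0 ≤ s) (hv : 0 ≤ v) (hw : 0 ≤ w) (hwτ : w ≤ τ)
    (hb2 : 0 ≤ b2) (hb4 : 0 ≤ b4) (hbr : b4 * (τ + 2 * v) ≤ b3) (hD : 0 ≤ 1 - s * v) :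
    (1 - s * w) * ((b2 * v ^ 2 + b3 * v ^ 3 - b4 * v ^ 4) * (1 - s * v) +
      ((2 * b2 * v + 3 * b3 * v ^ 2 - 4 * b4 * v ^ 3) * (1 - s * v) +
        s * (b2 * v ^ 2 + b3 * v ^ 3 - b4 * v ^ 4)) * (w - v)) ≤
      (b2 * w ^ 2 + b3 * w ^ 3 - b4 * w ^ 4) * (1 - s * v) ^ 2 := by
  have hb3 : 0 ≤ b3 := le_trans (mul_nonneg hb4 (by linarith)) hbr
  have g1 : b4 * (w + 2 * v) ≤ b3 := (mul_le_mul_of_nonneg_left (by linarith) hb4).trans hbr
  have g2 : b4 * (2 * v) ≤ b3 :=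
    (mul_le_mul_of_nonneg_left (by linarith) hb4).trans hbr
  have gv : 0 ≤ b4 * v := mul_nonneg hb4 hv
  have h1 : 0 ≤ b2 + b3 * (w + 2 * v) - b4 * (w ^ 2 + 2 * w * v + 3 * v ^ 2) := by
    have e1 : 0 ≤ w * (b3 - b4 * (w + 2 * v)) := mul_nonneg hw (by linarith)
    have e2 : 0 ≤ v * (2 * b3 - 3 * (b4 * v)) := mul_nonneg hv (by linarith)
    have e3 : b2 + b3 * (w + 2 * v) - b4 * (w ^ 2 + 2 * w * v + 3 * v ^ 2) =
      b2 + w * (b3 - b4 * (w + 2 * v)) + v * (2 * b3 - 3 * (b4 * v)) := by ring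
    rw [e3]; linarith
  have h2 : 0 ≤ b2 * v ^ 2 + b3 * v ^ 3 - b4 * v ^ 4 := by
    have e1 : 0 ≤ v ^ 3 * (b3 - b4 * v) := mul_nonneg (by positivity) (by linarith)
    have e2 : 0 ≤ b2 * v ^ 2 := by positivity
    have e3 : b2 * v ^ 2 + b3 * v ^ 3 - b4 * v ^ 4 = b2 * v ^ 2 + v ^ 3 * (b3 - b4 * v) := by ring
    rw [e3]; linarith
  have h3 : 0 ≤ 2 * b2 * v + 3 * b3 * v ^ 2 - 4 * b4 * v ^ 3 := by
    have e1 : 0 ≤ v ^ 2 * (3 * b3 - 4 * (b4 * v)) := mul_nonneg (by positivity) (by linarith)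
    have e2 : 0 ≤ 2 * b2 * v := by positivity
    have e3 : 2 * b2 * v + 3 * b3 * v ^ 2 - 4 * b4 * v ^ 3 =
      2 * b2 * v + v ^ 2 * (3 * b3 - 4 * (b4 * v)) := by ring
    rw [e3]; linarith
  have h4 : 0 ≤ (w - v) ^ 2 * ((1 - s * v) ^ 2 *
      (b2 + b3 * (w + 2 * v) - b4 * (w ^ 2 + 2 * w * v + 3 * v ^ 2)) +
      s * ((2 * b2 * v + 3 * b3 * v ^ 2 - 4 * b4 * v ^ 3) * (1 - s * v) +
        s * (b2 * v ^ 2 + b3 * v ^ 3 - b4 * v ^ 4))) := by positivity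
  have h5 : (b2 * w ^ 2 + b3 * w ^ 3 - b4 * w ^ 4) * (1 - s * v) ^ 2 -
      (1 - s * w) * ((b2 * v ^ 2 + b3 * v ^ 3 - b4 * v ^ 4) * (1 - s * v) +
      ((2 * b2 * v + 3 * b3 * v ^ 2 - 4 * b4 * v ^ 3) * (1 - s * v) +
        s * (b2 * v ^ 2 + b3 * v ^ 3 - b4 * v ^ 4)) * (w - v)) =
      (w - v) ^ 2 * ((1 - s * v) ^ 2 *
      (b2 + b3 * (w + 2 * v) - b4 * (w ^ 2 + 2 * w * v + 3 * v ^ 2)) +
      s * ((2 * b2 * v + 3 * b3 * v ^ 2 - 4 * b4 * v ^ 3) * (1 - s * v) +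
        s * (b2 * v ^ 2 + b3 * v ^ 3 - b4 * v ^ 4))) := by ring
  linarith

/-- tangent inequality, `w = -t < 0` -/
theorem tan_pos {s v t θ a g b2 b3 b4 d : ℝ} (hs : 0 ≤ s) (hv : v = a * θ) (hv0 : 0 ≤ v)
    (ht : 0 ≤ t) (htθ : t ≤ θ) (hb2 : 0 ≤ b2) (hb3 : 0 ≤ b3) (hb4 : 0 ≤ b4) (hd : 0 ≤ d)
    (hg : 0 ≤ g)
    (hbr : b4 * (2 * v) ≤ b3) (hD : 0 ≤ 1 - s * v)
    (hE : 0 ≤ b2 - d - b3 * θ * (1 - 2 * a) - b4 * θ ^ 2 * (1 + 3 * a ^ 2) - g * θ ^ 3) :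
    (1 + s * t) * ((b2 * v ^ 2 + b3 * v ^ 3 - b4 * v ^ 4) * (1 - s * v) +
      ((2 * b2 * v + 3 * b3 * v ^ 2 - 4 * b4 * v ^ 3) * (1 - s * v) +
        s * (b2 * v ^ 2 + b3 * v ^ 3 - b4 * v ^ 4)) * (-t - v)) ≤
      (t ^ 2 * (b2 - d - b3 * t - b4 * t ^ 2 - g * t ^ 3)) * (1 - s * v) ^ 2 := by
  have hθ : 0 ≤ θ := ht.trans htθ
  have gv : 0 ≤ b4 * v := mul_nonneg hb4 hv0
  have h2 : 0 ≤ b2 * v ^ 2 + b3 * v ^ 3 - b4 * v ^ 4 := by
    have e1 : 0 ≤ v ^ 3 * (b3 - b4 * v) := mul_nonneg (by positivity) (by linarith)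
    have e2 : 0 ≤ b2 * v ^ 2 := by positivity
    have e3 : b2 * v ^ 2 + b3 * v ^ 3 - b4 * v ^ 4 = b2 * v ^ 2 + v ^ 3 * (b3 - b4 * v) := by ring
    rw [e3]; linarith
  have h3 : 0 ≤ 2 * b2 * v + 3 * b3 * v ^ 2 - 4 * b4 * v ^ 3 := by
    have e1 : 0 ≤ v ^ 2 * (3 * b3 - 4 * (b4 * v)) := mul_nonneg (by positivity) (by linarith)
    have e2 : 0 ≤ 2 * b2 * v := by positivity
    have e3 : 2 * b2 * v + 3 * b3 * v ^ 2 - 4 * b4 * v ^ 3 =
      2 * b2 * v + v ^ 2 * (3 * b3 - 4 * (b4 * v)) := by ring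
    rw [e3]; linarith
  -- the bracket
  have h6 : b2 - d - b3 * θ * (1 - 2 * a) - b4 * θ ^ 2 * (1 + 3 * a ^ 2) - g * θ ^ 3 ≤
      b2 + b3 * (2 * v - t) - b4 * (t ^ 2 - 2 * t * v + 3 * v ^ 2) - d - g * t ^ 3 := by
    have e1 : b3 * (t - 2 * v) ≤ b3 * (θ - 2 * v) := mul_le_mul_of_nonneg_left (by linarith) hb3
    have e2 : b4 * (t ^ 2 - 2 * t * v + 3 * v ^ 2) ≤ b4 * (θ ^ 2 + 3 * v ^ 2) := by
      refine mul_le_mul_of_nonneg_left ?_ hb4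
      have f1 : t ^ 2 ≤ θ ^ 2 := pow_le_pow_left₀ ht htθ 2
      have f2 : 0 ≤ t * v := mul_nonneg ht hv0
      linarith
    have e3 : g * t ^ 3 ≤ g * θ ^ 3 := mul_le_mul_of_nonneg_left (pow_le_pow_left₀ ht htθ 3) hg
    have e4 : b3 * θ * (1 - 2 * a) = b3 * (θ - 2 * v) := by rw [hv]; ring
    have e5 : b4 * θ ^ 2 * (1 + 3 * a ^ 2) = b4 * (θ ^ 2 + 3 * v ^ 2) := by rw [hv]; ring
    rw [e4, e5]; linarith
  have h7 : 0 ≤ b2 + b3 * (2 * v - t) - b4 * (t ^ 2 - 2 * t * v + 3 * v ^ 2) - d - g * t ^ 3 :=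
    hE.trans h6
  have h8 : 0 ≤ b2 + b3 * (2 * v - t) - b4 * (t ^ 2 - 2 * t * v + 3 * v ^ 2) := by
    have : 0 ≤ g * t ^ 3 := by positivity
    linarith
  have h9 : 0 ≤ (t + v) ^ 2 * (b2 + b3 * (2 * v - t) - b4 * (t ^ 2 - 2 * t * v + 3 * v ^ 2)) -
      t ^ 2 * (d + g * t ^ 3) := by
    have e1 : t ^ 2 ≤ (t + v) ^ 2 := pow_le_pow_left₀ ht (by linarith) 2
    have e2 := mul_le_mul_of_nonneg_right e1 h8
    have e3 := mul_nonneg (sq_nonneg t) h7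
    nlinarith
  have h4 : 0 ≤ (1 - s * v) ^ 2 *
      ((t + v) ^ 2 * (b2 + b3 * (2 * v - t) - b4 * (t ^ 2 - 2 * t * v + 3 * v ^ 2)) -
      t ^ 2 * (d + g * t ^ 3)) + (t + v) ^ 2 *
      (s * ((2 * b2 * v + 3 * b3 * v ^ 2 - 4 * b4 * v ^ 3) * (1 - s * v) +
        s * (b2 * v ^ 2 + b3 * v ^ 3 - b4 * v ^ 4))) := by positivity
  have h5 : (t ^ 2 * (b2 - d - b3 * t - b4 * t ^ 2 - g * t ^ 3)) * (1 - s * v) ^ 2 -
      (1 + s * t) * ((b2 * v ^ 2 + b3 * v ^ 3 - b4 * v ^ 4) * (1 - s * v) +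
      ((2 * b2 * v + 3 * b3 * v ^ 2 - 4 * b4 * v ^ 3) * (1 - s * v) +
        s * (b2 * v ^ 2 + b3 * v ^ 3 - b4 * v ^ 4)) * (-t - v)) =
      (1 - s * v) ^ 2 *
      ((t + v) ^ 2 * (b2 + b3 * (2 * v - t) - b4 * (t ^ 2 - 2 * t * v + 3 * v ^ 2)) -
      t ^ 2 * (d + g * t ^ 3)) + (t + v) ^ 2 *
      (s * ((2 * b2 * v + 3 * b3 * v ^ 2 - 4 * b4 * v ^ 3) * (1 - s * v) +
        s * (b2 * v ^ 2 + b3 * v ^ 3 - b4 * v ^ 4))) := by ring
  linarith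

/-- the abstract form of region A -/
theorem regionA (h : Norm x) (i : Fin q) (hmax : ∀ j, x j ≤ x i) {s κ d g Q : ℝ}
    (hs : s = 1 / (1 + ta x)) (h1 : 2 * (x i - ta x) ≤ 1 - ta x)
    (hg : 2 ≤ 5 * g * (1 - (x i - ta x)))
    (hκ1 : ∀ j, x j ≤ ta x → HH x ^ 2 * kk x j ^ 2 ≤ 2 * κ) (hκ0 : 0 ≤ κ) (hd : 0 ≤ d)
    (hκ2 : ∀ j, HH x ^ 2 * kk x j ^ 2 ≤ 2 * (κ + d)) (hc2 : κ ≤ c2 s)
    (hbr : c4 s * (ta x + 2 * (x i * (x i - ta x))) ≤ c3 s)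
    (hE : 0 ≤ c2 s - (κ + d) - c3 s * (x i - ta x) * (1 - 2 * x i) -
      c4 s * (x i - ta x) ^ 2 * (1 + 3 * x i ^ 2) - g * (x i - ta x) ^ 3)
    (hQ : HH x ^ 2 * kk x i ^ 2 ≤ 2 * Q)
    (hW : 0 ≤ 1 - ta x - s / 2 - c3 s * (x i - ta x) * (1 - (x i - ta x) - x i ^ 2) -
      c4 s * (x i - ta x) ^ 2 * (1 - (x i - ta x) + x i ^ 3) -
      g * (x i - ta x) ^ 3 * (1 - (x i - ta x)) - Q * (1 - (x i - ta x)) - x i * κ) :
    HH x ^ 2 * E x (fun i => ff x i ^ 2) ≤ 2 * E x (fun i => FF s (x i - ta x)) := by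
  have hτ0 := ta_nonneg h
  have haτ := ta_le h hmax
  have hv := v_le h i
  have ha0 := h.nonneg i
  set a := x i with hadef
  set τ := ta x with hτdef
  obtain ⟨θ, hθ⟩ : ∃ θ, θ = a - τ := ⟨_, rfl⟩
  rw [← hθ] at h1 hg hbr hE hW hv
  have hθ0 : 0 ≤ θ := by linarith
  have hθ1 : θ ≤ 1 / 2 := by linarith
  obtain ⟨v, hvdef⟩ : ∃ v, v = a * θ := ⟨_, rfl⟩
  rw [← hvdef] at hv hbr
  have hv0 : 0 ≤ v := by rw [hvdef]; positivity
  have hS0 : 0 < 1 + τ := by linarith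
  have hs0 : 0 < s := by rw [hs]; positivity
  have hsS : s * (1 + τ) = 1 := by rw [hs]; field_simp
  have hs1 : s ≤ 1 := by nlinarith
  have hD : 0 < 1 - s * v := by
    have : s * v ≤ s * τ := mul_le_mul_of_nonneg_left hv hs0.le
    linarith
  have hb4 : 0 ≤ c4 s := by rw [c4]; positivity
  have hb3 : 0 ≤ c3 s := le_trans (mul_nonneg hb4 (by linarith)) hbr
  have hg0 : 0 ≤ g := by
    by_contra hcon
    have h1 : 0 < 1 - θ := by linarith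
    have : 5 * g * (1 - θ) ≤ 0 := mul_nonpos_of_nonpos_of_nonneg (by linarith) h1.le
    linarith
  set Nv := (c2 s - κ) * v ^ 2 + c3 s * v ^ 3 - c4 s * v ^ 4 with hNv
  set A := (2 * (c2 s - κ) * v + 3 * c3 s * v ^ 2 - 4 * c4 s * v ^ 3) * (1 - s * v) + s * Nv with hA
  -- pointwise
  have hpt : ∀ j, (1 + s * (x j - τ)) * (Nv * (1 - s * v) + A * (-(x j - τ) - v)) ≤
      (FF s (x j - τ) - HH x ^ 2 * ff x j ^ 2 / 2) * (1 - s * v) ^ 2 := by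
    intro j
    have hff : HH x ^ 2 * ff x j ^ 2 = (x j - τ) ^ 2 * (HH x ^ 2 * kk x j ^ 2) := by
      rw [ff_eq]; ring
    rcases le_total (x j) τ with hj | hj
    · -- `t ≤ 0`
      have e0 : 0 ≤ τ - x j := by linarith
      have e1 : s * (1 + (τ - x j)) ≤ 1 := by
        rw [← hsS]; exact mul_le_mul_of_nonneg_left (by linarith [h.nonneg j]) hs0.le
      have e2 := FF_neg hs0 hs1 e0 e1
      have e3 := tan_neg (s := s) (v := v) (w := τ - x j) (τ := τ) (b2 := c2 s - κ) (b3 := c3 s)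
        (b4 := c4 s) hs0.le hv0 e0 (by linarith [h.nonneg j]) (by linarith) hb4 hbr hD.le
      rw [← hNv, ← hA] at e3
      have e4 := mul_le_mul_of_nonneg_left (hκ1 j hj) (sq_nonneg (x j - τ))
      have e5 : 1 + s * (x j - τ) = 1 - s * (τ - x j) := by ring
      have e6 : -(x j - τ) - v = τ - x j - v := by ring
      have e7 : x j - τ = -(τ - x j) := by ring
      rw [e5, e6]
      refine e3.trans (mul_le_mul_of_nonneg_right ?_ (sq_nonneg _))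
      rw [hff, e7]
      rw [e7] at e4
      linarith
    · have e0 : 0 ≤ x j - τ := by linarith
      have e0' : x j - τ ≤ θ := by rw [hθ]; linarith [hmax j]
      have e2 := FF_pos (g := g) hs0 e0 (by linarith)
        (hg.trans (mul_le_mul_of_nonneg_left (by linarith) (by positivity)))
      have e3 := tan_pos (s := s) (v := v) (t := x j - τ) (θ := θ) (a := a) (g := g)
        (b2 := c2 s - κ) (b3 := c3 s) (b4 := c4 s) (d := d) hs0.le hvdef hv0 e0 e0' (by linarith)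
        hb3 hb4 hd hg0
        (le_trans (mul_le_mul_of_nonneg_left (by linarith) hb4) hbr) hD.le (by linarith)
      rw [← hNv, ← hA] at e3
      have e4 := mul_le_mul_of_nonneg_left (hκ2 j) (sq_nonneg (x j - τ))
      refine e3.trans (mul_le_mul_of_nonneg_right ?_ (sq_nonneg _))
      rw [hff]
      linarith
  -- the largest one
  have hpt' : θ ^ 2 * (c2 s - c3 s * θ - c4 s * θ ^ 2 - g * θ ^ 3) - θ ^ 2 * Q ≤
      FF s (x i - τ) - HH x ^ 2 * ff x i ^ 2 / 2 := by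
    have hff : HH x ^ 2 * ff x i ^ 2 = θ ^ 2 * (HH x ^ 2 * kk x i ^ 2) := by
      rw [ff_eq, hθ]; ring
    rw [hff, ← hadef, ← hθ]
    have e2 := FF_pos (g := g) hs0 hθ0 (by linarith) hg
    have e4 := mul_le_mul_of_nonneg_left hQ (sq_nonneg θ)
    linarith
  -- summation
  have hρ : ∀ j, rho x j * (1 + s * (x j - τ)) = s * pp x j := by
    intro j
    rw [← h.rho_mul]
    have : 1 + s * (x j - τ) = s * (1 + τ) + s * (x j - τ) := by rw [hsS]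
    rw [this]; ring
  have hD2 : 0 < (1 - s * v) ^ 2 := by positivity
  have hpa : (1 + a) * pp x i = a := h.mul_pp i
  have h1a : 0 < 1 + a := by linarith
  have hsum : s * (Nv * (1 - s * v)) * (1 - pp x i) ≤
      ∑ j ∈ univ.erase i, rho x j * (FF s (x j - τ) - HH x ^ 2 * ff x j ^ 2 / 2) *
        (1 - s * v) ^ 2 := by
    have e1 : ∑ j ∈ univ.erase i, s * (pp x j * (Nv * (1 - s * v) + A * (-(x j - τ) - v))) ≤
        ∑ j ∈ univ.erase i, rho x j * (FF s (x j - τ) - HH x ^ 2 * ff x j ^ 2 / 2) *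
        (1 - s * v) ^ 2 := by
      refine sum_le_sum fun j _ => ?_
      have := mul_le_mul_of_nonneg_left (hpt j) (h.rho_nonneg j)
      rw [← mul_assoc, hρ] at this
      linarith
    refine le_trans (le_of_eq ?_) e1
    have e2 : ∑ j ∈ univ.erase i, s * (pp x j * (Nv * (1 - s * v) + A * (-(x j - τ) - v))) =
        ∑ j, s * (pp x j * (Nv * (1 - s * v) + A * (-(x j - τ) - v))) -
        s * (pp x i * (Nv * (1 - s * v) + A * (-(x i - τ) - v))) := by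
      rw [← Finset.sum_erase_add univ _ (mem_univ i)]; ring
    have e3 : ∑ j, s * (pp x j * (Nv * (1 - s * v) + A * (-(x j - τ) - v))) =
        s * (Nv * (1 - s * v) - A * v) := by
      rw [← mul_sum]
      congr 1
      rw [← sum_aff h (Nv * (1 - s * v) - A * v) (-A)]
      refine sum_congr rfl fun j _ => ?_
      rw [← hτdef]; ring
    rw [e2, e3, ← hadef, ← hθ]
    have e4 : pp x i * (θ + v) = v := by
      have : θ + v = (1 + a) * θ := by rw [hvdef]; ring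
      rw [this, ← mul_assoc, mul_comm (pp x i), hpa, hvdef]
    have e5 : s * (Nv * (1 - s * v) - A * v) -
        s * (pp x i * (Nv * (1 - s * v) + A * (-θ - v))) =
        s * (Nv * (1 - s * v)) * (1 - pp x i) - s * A * (v - pp x i * (θ + v)) := by ring
    rw [e5, e4]; ring
  -- the total
  have htot : 0 ≤ ∑ j, rho x j * (FF s (x j - τ) - HH x ^ 2 * ff x j ^ 2 / 2) *
      (1 - s * v) ^ 2 := by
    rw [← Finset.sum_erase_add univ _ (mem_univ i)]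
    have e1 := mul_le_mul_of_nonneg_right
      (mul_le_mul_of_nonneg_left hpt' (h.rho_nonneg i)) hD2.le
    refine le_trans ?_ (add_le_add hsum e1)
    -- everything is explicit now
    have f1 : (1 + a) * (1 - pp x i) = 1 := h.one_sub_pp i
    have f2 : (1 + a) ^ 2 * rho x i = a := by
      have := h.rho_mul_sq i
      rw [mul_comm]; exact this
    have f3 : 1 - s * v = s * ((1 + a) * (1 - θ)) := by
      have e : s * ((1 + a) * (1 - θ)) = s * (1 + τ) - s * v := by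
        rw [hvdef, hθ]; ring
      rw [e, hsS]
    have f4 : 0 < 1 - θ := by linarith
    have key : (1 + a) ^ 2 * (s * (Nv * (1 - s * v)) * (1 - pp x i) +
        rho x i * (θ ^ 2 * (c2 s - c3 s * θ - c4 s * θ ^ 2 - g * θ ^ 3) - θ ^ 2 * Q) *
        (1 - s * v) ^ 2) = s ^ 2 * (1 + a) ^ 2 * (1 - θ) * (Nv + a * (1 - θ) *
          (θ ^ 2 * (c2 s - c3 s * θ - c4 s * θ ^ 2 - g * θ ^ 3) - θ ^ 2 * Q)) := by
      rw [f3]
      have g1 : (1 + a) ^ 2 * (s * (Nv * (s * ((1 + a) * (1 - θ)))) * (1 - pp x i) +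
        rho x i * (θ ^ 2 * (c2 s - c3 s * θ - c4 s * θ ^ 2 - g * θ ^ 3) - θ ^ 2 * Q) *
        (s * ((1 + a) * (1 - θ))) ^ 2) =
        s ^ 2 * (1 + a) ^ 2 * (1 - θ) * (Nv * ((1 + a) * (1 - pp x i)) + (1 - θ) *
          ((1 + a) ^ 2 * rho x i) *
          (θ ^ 2 * (c2 s - c3 s * θ - c4 s * θ ^ 2 - g * θ ^ 3) - θ ^ 2 * Q)) := by ring
      rw [g1, f1, f2]; ring
    have key2 : Nv + a * (1 - θ) *
        (θ ^ 2 * (c2 s - c3 s * θ - c4 s * θ ^ 2 - g * θ ^ 3) - θ ^ 2 * Q) =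
        a * θ ^ 2 * (1 - τ - s / 2 - c3 s * θ * (1 - θ - a ^ 2) -
      c4 s * θ ^ 2 * (1 - θ + a ^ 3) -
      g * θ ^ 3 * (1 - θ) - Q * (1 - θ) - a * κ) := by
      have g1 : c2 s * (1 + τ) = 1 - τ - s / 2 := by
        have : c2 s * (1 + τ) = 2 * (s * (1 + τ)) - (1 + τ) - s * (s * (1 + τ)) / 2 := by
          rw [c2]; ring
        rw [this, hsS]; ring
      have g2 : τ = a - θ := by linarith
      rw [← g1, hNv, hvdef, g2]
      ring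
    have key3 : 0 ≤ (1 + a) ^ 2 * (s * (Nv * (1 - s * v)) * (1 - pp x i) +
        rho x i * (θ ^ 2 * (c2 s - c3 s * θ - c4 s * θ ^ 2 - g * θ ^ 3) - θ ^ 2 * Q) *
        (1 - s * v) ^ 2) := by
      rw [key, key2]
      exact mul_nonneg (by positivity) (mul_nonneg (by positivity) hW)
    have hpos : 0 < (1 + a) ^ 2 := by positivity
    exact nonneg_of_mul_nonneg_right key3 hpos
  rw [← sum_mul] at htot
  have h9 := nonneg_of_mul_nonneg_left htot hD2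
  have h10 : ∑ j, rho x j * (FF s (x j - τ) - HH x ^ 2 * ff x j ^ 2 / 2) =
      E x (fun i => FF s (x i - τ)) - HH x ^ 2 / 2 * E x (fun i => ff x i ^ 2) := by
    rw [E, E, mul_sum, ← sum_sub_distrib]
    exact sum_congr rfl fun j _ => by ring
  rw [h10] at h9
  linarith

end Pool.Agent.Helper56.HLA.Half
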