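import Pool.Agent.Helper56.HLA.Half.RegA
import Pool.Agent.Helper56.HLA.Half.PolyA

/-!
Region A: the total weight is at most 1.58.
-/

set_option autoImplicit false

namespace Pool.Agent.Helper56.HLA.Half

open Pool.Agent.Helper6.HL Pool.Agent.Helper66.HL Pool.Agent.Helper56.HLA Finset

variable {q : ℕ} {x : Fin q → ℝ}

theorem HH_le (h : Norm x) (i : Fin q) (hmax : ∀ j, x j ≤ x i)
    (h2 : 2 * (x i - ta x) ≤ 1 - ta x) : (3 + ta x) * HH x ≤ 3 - ta x := by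
  have hτ := ta_nonneg h
  have haτ := ta_le h hmax
  have h3 := HH_upper h (a := x i) hmax rfl
  have hS : ∑ j, x j = 1 + ta x := by rw [ta]; ring
  rw [hS] at h3
  have h1a := h.pos i
  have h4 : (3 + ta x) * ((1 + x i) * HH x) ≤ (3 + ta x) * (2 + x i - (1 + ta x)) :=
    mul_le_mul_of_nonneg_left h3 (by linarith)
  have h5 : 0 ≤ ta x * (1 - ta x - 2 * (x i - ta x)) := mul_nonneg hτ (by linarith)
  have h6 : (1 + x i) * ((3 + ta x) * HH x) ≤ (1 + x i) * (3 - ta x) := by nlinarith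
  exact le_of_mul_le_mul_left h6 h1a

theorem c3_eq {s S : ℝ} (hS : 0 < S) (hs : s = 1 / S) :
    c3 s = (4 * S * (2 * S ^ 3 - 1)) / (12 * S ^ 4) := by
  rw [c3, hs]; field_simp; ring

theorem c4_eq {s S : ℝ} (hS : 0 < S) (hs : s = 1 / S) :
    c4 s = (3 * (2 * S ^ 4 + 1)) / (12 * S ^ 4) := by
  rw [c4, hs]; field_simp; ring

theorem c2_eq {s t : ℝ} (hS : 0 < 1 + t) (hs : s = 1 / (1 + t)) :
    c2 s = (6 * (1 + t) ^ 2 * (1 - 2 * t ^ 2)) / (12 * (1 + t) ^ 4) := by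
  rw [c2, hs]; field_simp; ring

theorem br_of {t v s : ℝ} (h0 : 0 ≤ t) (h1 : t ≤ 29 / 50) (hv1 : v ≤ t)
    (hv2 : v ≤ (1 - t ^ 2) / 4) (hs : s = 1 / (1 + t)) : c4 s * (t + 2 * v) ≤ c3 s := by
  have hS : 0 < 1 + t := by linarith
  rw [c3_eq hS hs, c4_eq hS hs, div_mul_eq_mul_div, div_le_div_iff_of_pos_right (by positivity)]
  have hp : 0 ≤ 3 * (2 * (1 + t) ^ 4 + 1) := by positivity
  rcases le_total t (1 / 5) with h | h
  · have := polyBr0 h0 h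
    have := mul_le_mul_of_nonneg_left (by linarith : t + 2 * v ≤ 3 * t) hp
    linarith
  · have := polyBr1 h h1
    have := mul_le_mul_of_nonneg_left (by linarith : t + 2 * v ≤ t + (1 - t ^ 2) / 2) hp
    linarith

theorem regA1 (h : Norm x) (i : Fin q) (hmax : ∀ j, x j ≤ x i)
    (h2 : 2 * (x i - ta x) ≤ 1 - ta x) (hτ : ta x ≤ 1 / 2) :
    HH x ^ 2 * E x (fun i => ff x i ^ 2) ≤
      2 * E x (fun i => FF (1 / (1 + ta x)) (x i - ta x)) := by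
  have hτ0 := ta_nonneg h
  have haτ := ta_le h hmax
  have hv := v_le h i
  have hH := HH_pos h
  have hHle := HH_le h i hmax h2
  obtain ⟨t, ht⟩ : ∃ t, t = ta x := ⟨_, rfl⟩
  rw [← ht] at h2 hτ hτ0 haτ hv hHle
  have hS : 0 < 1 + t := by linarith
  obtain ⟨k, hk⟩ : ∃ k, k = 8 / 1000 + 5 / 100 * t + 141 / 1000 * t ^ 2 := ⟨_, rfl⟩
  have hk0 : 0 ≤ k := by rw [hk]; positivity
  obtain ⟨s, hs⟩ : ∃ s, s = 1 / (1 + t) := ⟨_, rfl⟩
  have hs0 : 0 < s := by rw [hs]; positivity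
  have hst : s = 1 / (1 + ta x) := by rw [hs, ht]
  rw [← hst]
  have hsS : s * (1 + t) = 1 := by rw [hs]; field_simp
  have ha0 := h.nonneg i
  have ha1 : x i ≤ (1 + t) / 2 := by linarith
  -- the bound for `κ`
  have hH1 : HH x ≤ 1 - 4 * t / 7 := by
    have h3 : (3 + t) * HH x ≤ (3 + t) * (1 - 4 * t / 7) := by
      have : 0 ≤ t * (1 - 2 * t) := mul_nonneg hτ0 (by linarith)
      nlinarith
    exact le_of_mul_le_mul_left h3 (by linarith)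
  have hκ : ∀ j, HH x ^ 2 * kk x j ^ 2 ≤ 2 * (s * k) := by
    intro j
    have e1 := kk_sq h hmax j
    have e2 : HH x ^ 2 ≤ (1 - 4 * t / 7) ^ 2 := pow_le_pow_left₀ hH.le hH1 2
    have e3 : (x i ^ 3) ^ 2 ≤ (((1 + t) / 2) ^ 3) ^ 2 := by
      have := pow_le_pow_left₀ ha0 ha1 6
      nlinarith
    have e4 := mul_le_mul e2 (e1.trans e3) (sq_nonneg _) (sq_nonneg _)
    refine e4.trans ?_
    have e5 := polyK hτ0 hτ
    rw [← hk] at e5
    have e6 : ((1 + t) * s) * ((1 - 4 * t / 7) ^ 2 * (((1 + t) / 2) ^ 3) ^ 2) ≤ 2 * (s * k) := by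
      have := mul_nonneg hs0.le e5
      nlinarith
    rw [mul_comm (1 + t), hsS, one_mul] at e6
    exact e6
  have hv2 : x i * (x i - t) ≤ (1 - t ^ 2) / 4 := by
    have := mul_le_mul ha1 (by linarith : x i - t ≤ (1 - t) / 2) (by linarith) (by linarith)
    nlinarith
  have hc2 : s * k ≤ c2 s := by
    rw [c2_eq hS hs, le_div_iff₀ (by positivity)]
    have e1 : s * k * (12 * (1 + t) ^ 4) = 12 * (1 + t) ^ 3 * k * (s * (1 + t)) := by ring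
    rw [e1, hsS, mul_one, hk]
    have e2 : 2 * (1 + t) * (8 / 1000 + 5 / 100 * t + 141 / 1000 * t ^ 2) ≤ 1 - 2 * t ^ 2 := by
      have f1 : t ^ 2 ≤ 1 / 4 := by nlinarith
      have f2 : 8 / 1000 + 5 / 100 * t + 141 / 1000 * t ^ 2 ≤ 7 / 100 := by linarith
      have f3 : 0 ≤ 8 / 1000 + 5 / 100 * t + 141 / 1000 * t ^ 2 := by positivity
      nlinarith
    have e3 : 0 ≤ 6 * (1 + t) ^ 2 := by positivity
    have := mul_le_mul_of_nonneg_left e2 e3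
    linarith
  have hx : x i = t + (x i - t) := by ring
  obtain ⟨θ, hθ⟩ : ∃ θ, θ = x i - t := ⟨_, rfl⟩
  have hθ0 : 0 ≤ θ := by linarith
  have hxθ : x i = t + θ := by linarith
  have h3 : 2 * θ ≤ 1 - t := by linarith
  have hpos : 0 < 12 * (1 + t) ^ 4 := by positivity
  refine regionA h i hmax (s := s) (κ := s * k) (d := 0) (g := 4 / 5) (Q := s * k)
    (by rw [← ht]; exact hs) (by rw [← ht]; exact h2) (by rw [← ht]; linarith)
    (fun j _ => hκ j) (by positivity) le_rfl (fun j => by rw [add_zero]; exact hκ j) hc2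
    (by rw [← ht]; exact br_of hτ0 (by linarith) hv hv2 hs) ?_ (hκ i) ?_
  · rw [← ht, ← hθ, hxθ, c2_eq hS hs, c3_eq hS hs, c4_eq hS hs]
    have e1 := polyE1 hτ0 hτ hθ0 h3
    have e2 : 6 * (1 + t) ^ 2 * (1 - 2 * t ^ 2) / (12 * (1 + t) ^ 4) - (s * k + 0) -
        4 * (1 + t) * (2 * (1 + t) ^ 3 - 1) / (12 * (1 + t) ^ 4) * θ * (1 - 2 * (t + θ)) -
        3 * (2 * (1 + t) ^ 4 + 1) / (12 * (1 + t) ^ 4) * θ ^ 2 * (1 + 3 * (t + θ) ^ 2) -
        4 / 5 * θ ^ 3 = (6 * (1 + t) ^ 2 * (1 - 2 * t ^ 2) - 12 * (1 + t) ^ 3 *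
        (8 / 1000 + 5 / 100 * t + 141 / 1000 * t ^ 2) -
        4 * (1 + t) * (2 * (1 + t) ^ 3 - 1) * θ * (1 - 2 * (t + θ)) -
        3 * (2 * (1 + t) ^ 4 + 1) * θ ^ 2 * (1 + 3 * (t + θ) ^ 2) -
        12 * (4 / 5) * (1 + t) ^ 4 * θ ^ 3) / (12 * (1 + t) ^ 4) := by
      rw [hs, hk]
      field_simp
      ring
    rw [e2]
    exact div_nonneg e1 hpos.le
  · rw [← ht, ← hθ, hxθ, c3_eq hS hs, c4_eq hS hs]
    have e1 := polyW1 hτ0 hτ hθ0 h3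
    have e2 : 1 - t - s / 2 -
        4 * (1 + t) * (2 * (1 + t) ^ 3 - 1) / (12 * (1 + t) ^ 4) * θ * (1 - θ - (t + θ) ^ 2) -
        3 * (2 * (1 + t) ^ 4 + 1) / (12 * (1 + t) ^ 4) * θ ^ 2 * (1 - θ + (t + θ) ^ 3) -
        4 / 5 * θ ^ 3 * (1 - θ) - s * k * (1 - θ) - (t + θ) * (s * k) =
        ((1 - t) * (12 * (1 + t) ^ 4) - 6 * (1 + t) ^ 3 -
        4 * (1 + t) * (2 * (1 + t) ^ 3 - 1) * θ * (1 - θ - (t + θ) ^ 2) -
        3 * (2 * (1 + t) ^ 4 + 1) * θ ^ 2 * (1 - θ + (t + θ) ^ 3) -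
        12 * (4 / 5) * (1 + t) ^ 4 * θ ^ 3 * (1 - θ) - 12 * (1 + t) ^ 4 *
        (8 / 1000 + 5 / 100 * t + 141 / 1000 * t ^ 2)) / (12 * (1 + t) ^ 4) := by
      rw [hs, hk]
      field_simp
      ring
    rw [e2]
    exact div_nonneg e1 hpos.le

theorem regA2 (h : Norm x) (i : Fin q) (hmax : ∀ j, x j ≤ x i)
    (h2 : 2 * (x i - ta x) ≤ 1 - ta x) (hτ1 : 1 / 2 ≤ ta x) (hτ2 : ta x ≤ 29 / 50) :
    HH x ^ 2 * E x (fun i => ff x i ^ 2) ≤
      2 * E x (fun i => FF (1 / (1 + ta x)) (x i - ta x)) := by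
  have haτ := ta_le h hmax
  have hv := v_le h i
  have hH := HH_pos h
  have hHle := HH_le h i hmax h2
  have hkmax := kk_sq_max h i hmax (by linarith)
  obtain ⟨t, ht⟩ : ∃ t, t = ta x := ⟨_, rfl⟩
  rw [← ht] at h2 hτ1 hτ2 haτ hv hHle hkmax
  have hS : 0 < 1 + t := by linarith
  have hτ0 : 0 ≤ t := by linarith
  obtain ⟨s, hs⟩ : ∃ s, s = 1 / (1 + t) := ⟨_, rfl⟩
  have hs0 : 0 < s := by rw [hs]; positivity
  have hst : s = 1 / (1 + ta x) := by rw [hs, ht]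
  rw [← hst]
  have ha0 := h.nonneg i
  have ha1 : x i ≤ (1 + t) / 2 := by linarith
  have h3t : 0 < (3 + t) ^ 2 := by positivity
  have hH2 : HH x ^ 2 * (3 + t) ^ 2 ≤ (3 - t) ^ 2 := by
    have := pow_le_pow_left₀ (by positivity) hHle 2
    nlinarith
  obtain ⟨w, hw⟩ : ∃ w, w = 8428 / 10000 - 665 / 1000 * t := ⟨_, rfl⟩
  have hH3 : HH x ^ 2 ≤ w := by
    have e1 := polyH2 hτ1 hτ2
    rw [← hw] at e1
    have e2 : HH x ^ 2 * (3 + t) ^ 2 ≤ w * (3 + t) ^ 2 := by linarith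
    exact le_of_mul_le_mul_right e2 h3t
  have hw0 : 0 ≤ w := (sq_nonneg _).trans hH3
  -- `t ≤ 0`
  obtain ⟨M, hM⟩ : ∃ M, M = max (t ^ 3) (t * ((1 - t) / 2) * ((1 + t) / 2 + t)) := ⟨_, rfl⟩
  have hM2 : M ^ 2 * (3 - t) ^ 2 ≤ 176 / 10000 * (3 + t) ^ 2 := by
    rcases max_choice (t ^ 3) (t * ((1 - t) / 2) * ((1 + t) / 2 + t)) with h4 | h4
    · rw [hM, h4]; have := polyT3 hτ1 hτ2; linarith
    · rw [hM, h4]; have := polyT4 hτ1 hτ2; linarith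
  have hκ1 : ∀ j, x j ≤ t → HH x ^ 2 * kk x j ^ 2 ≤ 2 * (88 / 10000) := by
    intro j hj
    have e1 := kk_sq_small h (a := x i) (b := t) (M := M) hmax j hj
      (by rw [hM]; exact le_max_left _ _) (by
        rw [hM, ← ht]
        refine le_trans ?_ (le_max_right _ _)
        have f1 : t * (x i - t) ≤ t * ((1 - t) / 2) :=
          mul_le_mul_of_nonneg_left (by linarith) hτ0
        exact mul_le_mul f1 (by linarith) (by linarith)
          (mul_nonneg hτ0 (by linarith)))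
    have e2 := mul_le_mul_of_nonneg_left e1 (sq_nonneg (HH x))
    refine e2.trans ?_
    have e3 : HH x ^ 2 * M ^ 2 * (3 + t) ^ 2 ≤ 2 * (88 / 10000) * (3 + t) ^ 2 := by
      have := mul_le_mul_of_nonneg_right hH2 (sq_nonneg M)
      linarith
    exact le_of_mul_le_mul_right e3 h3t
  obtain ⟨θ, hθ⟩ : ∃ θ, θ = x i - t := ⟨_, rfl⟩
  have hθ0 : 0 ≤ θ := by linarith
  have hxθ : x i = t + θ := by linarith
  have h3 : 2 * θ ≤ 1 - t := by linarith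
  have hpos : 0 < 12 * (1 + t) ^ 4 := by positivity
  have hκ2 : ∀ j, HH x ^ 2 * kk x j ^ 2 ≤ w * (t + θ) ^ 6 := by
    intro j
    have e1 := kk_sq h hmax j
    have e2 := mul_le_mul hH3 e1 (sq_nonneg _) hw0
    rw [hxθ] at e2
    refine e2.trans (le_of_eq ?_)
    ring
  have hQ : HH x ^ 2 * kk x i ^ 2 ≤
      w * ((t + θ) * ((t + θ) ^ 2 - 3 * t * θ ^ 2)) ^ 2 := by
    have e2 := mul_le_mul hH3 hkmax (sq_nonneg _) hw0
    rw [← hθ, hxθ] at e2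
    exact e2
  have hv2 : x i * (x i - t) ≤ (1 - t ^ 2) / 4 := by
    have := mul_le_mul ha1 (by linarith : x i - t ≤ (1 - t) / 2) (by linarith) (by linarith)
    nlinarith
  have hc2 : (88 / 10000 : ℝ) ≤ c2 s := by
    rw [c2_eq hS hs, le_div_iff₀ (by positivity)]
    have e2 : 88 / 10000 * (2 * (1 + t) ^ 2) ≤ 1 - 2 * t ^ 2 := by
      have f1 : t ^ 2 ≤ (29 / 50) ^ 2 := pow_le_pow_left₀ hτ0 hτ2 2
      have f2 : (1 + t) ^ 2 ≤ (79 / 50) ^ 2 := pow_le_pow_left₀ hS.le (by linarith) 2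
      norm_num at f1 f2
      linarith
    have e3 : 0 ≤ 6 * (1 + t) ^ 2 := by positivity
    have := mul_le_mul_of_nonneg_left e2 e3
    linarith
  obtain ⟨D, hD⟩ : ∃ D, D = max 0 (w * (t + θ) ^ 6 / 2 - 88 / 10000) := ⟨_, rfl⟩
  have hD0 : 0 ≤ D := by rw [hD]; exact le_max_left _ _
  have hD1 : w * (t + θ) ^ 6 / 2 - 88 / 10000 ≤ D := by rw [hD]; exact le_max_right _ _
  refine regionA h i hmax (s := s) (κ := 88 / 10000) (d := D) (g := 8 / 15)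
    (Q := w * ((t + θ) * ((t + θ) ^ 2 - 3 * t * θ ^ 2)) ^ 2 / 2)
    (by rw [← ht]; exact hs) (by rw [← ht]; exact h2) (by rw [← ht]; linarith)
    (fun j hj => hκ1 j (by rw [ht]; exact hj)) (by norm_num) hD0
    (fun j => (hκ2 j).trans (by linarith)) hc2
    (by rw [← ht]; exact br_of hτ0 (by linarith) hv hv2 hs) ?_ (by linarith) ?_
  · rw [← ht, ← hθ, hxθ, c2_eq hS hs, c3_eq hS hs, c4_eq hS hs]
    rcases max_choice 0 (w * (t + θ) ^ 6 / 2 - 88 / 10000) with h4 | h4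
    · rw [← hD] at h4
      rw [h4]
      have e1 := polyE2a hτ1 hτ2 hθ0 h3
      have e2 : 6 * (1 + t) ^ 2 * (1 - 2 * t ^ 2) / (12 * (1 + t) ^ 4) - (88 / 10000 + 0) -
          4 * (1 + t) * (2 * (1 + t) ^ 3 - 1) / (12 * (1 + t) ^ 4) * θ * (1 - 2 * (t + θ)) -
          3 * (2 * (1 + t) ^ 4 + 1) / (12 * (1 + t) ^ 4) * θ ^ 2 * (1 + 3 * (t + θ) ^ 2) -
          8 / 15 * θ ^ 3 = (6 * (1 + t) ^ 2 * (1 - 2 * t ^ 2) - 12 * (1 + t) ^ 4 *
          (88 / 10000) -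
          4 * (1 + t) * (2 * (1 + t) ^ 3 - 1) * θ * (1 - 2 * (t + θ)) -
          3 * (2 * (1 + t) ^ 4 + 1) * θ ^ 2 * (1 + 3 * (t + θ) ^ 2) -
          12 * (8 / 15) * (1 + t) ^ 4 * θ ^ 3) / (12 * (1 + t) ^ 4) := by
        field_simp
        ring
      rw [e2]
      exact div_nonneg e1 hpos.le
    · rw [← hD] at h4
      rw [h4]
      have e1 := polyE2b hτ1 hτ2 hθ0 h3
      rw [← hw] at e1
      have e2 : 6 * (1 + t) ^ 2 * (1 - 2 * t ^ 2) / (12 * (1 + t) ^ 4) -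
          (88 / 10000 + (w * (t + θ) ^ 6 / 2 - 88 / 10000)) -
          4 * (1 + t) * (2 * (1 + t) ^ 3 - 1) / (12 * (1 + t) ^ 4) * θ * (1 - 2 * (t + θ)) -
          3 * (2 * (1 + t) ^ 4 + 1) / (12 * (1 + t) ^ 4) * θ ^ 2 * (1 + 3 * (t + θ) ^ 2) -
          8 / 15 * θ ^ 3 = (6 * (1 + t) ^ 2 * (1 - 2 * t ^ 2) - 6 * (1 + t) ^ 4 *
          (w * (t + θ) ^ 6) -
          4 * (1 + t) * (2 * (1 + t) ^ 3 - 1) * θ * (1 - 2 * (t + θ)) -
          3 * (2 * (1 + t) ^ 4 + 1) * θ ^ 2 * (1 + 3 * (t + θ) ^ 2) -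
          12 * (8 / 15) * (1 + t) ^ 4 * θ ^ 3) / (12 * (1 + t) ^ 4) := by
        field_simp
        ring
      rw [e2]
      exact div_nonneg e1 hpos.le
  · rw [← ht, ← hθ, hxθ, c3_eq hS hs, c4_eq hS hs]
    have e1 := polyW2 hτ1 hτ2 hθ0 h3
    rw [← hw] at e1
    have e2 : 1 - t - s / 2 -
        4 * (1 + t) * (2 * (1 + t) ^ 3 - 1) / (12 * (1 + t) ^ 4) * θ * (1 - θ - (t + θ) ^ 2) -
        3 * (2 * (1 + t) ^ 4 + 1) / (12 * (1 + t) ^ 4) * θ ^ 2 * (1 - θ + (t + θ) ^ 3) -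
        8 / 15 * θ ^ 3 * (1 - θ) -
        w * ((t + θ) * ((t + θ) ^ 2 - 3 * t * θ ^ 2)) ^ 2 / 2 * (1 - θ) -
        (t + θ) * (88 / 10000) =
        ((1 - t) * (12 * (1 + t) ^ 4) - 6 * (1 + t) ^ 3 -
        4 * (1 + t) * (2 * (1 + t) ^ 3 - 1) * θ * (1 - θ - (t + θ) ^ 2) -
        3 * (2 * (1 + t) ^ 4 + 1) * θ ^ 2 * (1 - θ + (t + θ) ^ 3) -
        12 * (8 / 15) * (1 + t) ^ 4 * θ ^ 3 * (1 - θ) -
        6 * (1 + t) ^ 4 * (w * ((t + θ) * ((t + θ) ^ 2 - 3 * t * θ ^ 2)) ^ 2 * (1 - θ)) -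
        12 * (1 + t) ^ 4 * ((t + θ) * (88 / 10000))) / (12 * (1 + t) ^ 4) := by
      rw [hs]
      field_simp
      ring
    rw [e2]
    exact div_nonneg e1 hpos.le

end Pool.Agent.Helper56.HLA.Half
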