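import Pool.Agent.Helper56.HLA.Half.Mom

/-!
Region B: the two largest weights dominate.
-/

set_option autoImplicit false

namespace Pool.Agent.Helper56.HLA.Half

open Pool.Agent.Helper6.HL Pool.Agent.Helper66.HL Pool.Agent.Helper56.HLA Finset

variable {q : ℕ} {x : Fin q → ℝ}

theorem split_two (f : Fin q → ℝ) {i j : Fin q} (hij : i ≠ j) :
    ∑ l, f l = f i + f j + ∑ l ∈ (univ.erase i).erase j, f l := by
  rw [← add_sum_erase univ f (mem_univ i),
    ← add_sum_erase (univ.erase i) f (mem_erase.2 ⟨hij.symm, mem_univ j⟩)]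
  ring

theorem rho_le_quarter (h : Norm x) (i : Fin q) : rho x i ≤ 1 / 4 := by
  have h1 := h.pos i
  rw [rho, div_le_div_iff₀ (by positivity) (by norm_num)]
  nlinarith [sq_nonneg (x i - 1)]

/-- scalar consequences of the normalisation, for the two largest weights `a`, `b` and the rest -/
theorem rest_bounds {a b r p σ : ℝ} (hb0 : 0 ≤ b) (haσ : a ≤ σ) (hba : b ≤ a)
    (haτ : 2 * σ - 1 ≤ a) (hσ : 79 / 100 ≤ σ) (hr : 0 ≤ r)
    (hsum : a + b + r = 2 * σ) (hp : (1 + a) * (1 + b) * p = 1 - a * b)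
    (h1 : r ≤ (1 + r) * p) (h2 : r ≤ (1 + b) * p) (h3 : p ≤ r) :
    r ≤ σ / 2 ∧ (1 + 2 * σ) * (r * (σ - r)) ≤ 1 - σ ^ 2 ∧ 2 * (1 - σ) ≤ r * (1 + 2 * σ) := by
  have ha0 : 0 ≤ a := hb0.trans hba
  have hpa : 0 < (1 + a) * (1 + b) := by positivity
  -- (1)
  have e1 : a * b * (1 + 2 * r) + r * (a + b) ≤ 1 := by
    have := mul_le_mul_of_nonneg_left h1 hpa.le
    have e : (1 + a) * (1 + b) * ((1 + r) * p) = (1 + r) * (1 - a * b) := by rw [← hp]; ring
    rw [e] at this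
    nlinarith
  have hbσ : b ≤ σ := hba.trans haσ
  have hb : b = 2 * σ - r - a := by linarith
  have e2 : (1 + 2 * σ) * (r * (σ - r)) ≤ 1 - σ ^ 2 := by
    have f1 : σ * (σ - r) ≤ a * b := by
      have := mul_nonneg (sub_nonneg.2 haσ) (sub_nonneg.2 hbσ)
      rw [hb] at this ⊢
      nlinarith
    have f2 := mul_le_mul_of_nonneg_right f1 (by linarith : 0 ≤ 1 + 2 * r)
    have f3 : a + b = 2 * σ - r := by linarith
    rw [f3] at e1
    nlinarith
  -- (2)
  have e3 : r ≤ 1 - a * (2 * σ - a) := by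
    have := mul_le_mul_of_nonneg_left h2 (by linarith : 0 ≤ 1 + a)
    have e : (1 + a) * ((1 + b) * p) = 1 - a * b := by rw [← hp]; ring
    rw [e, hb] at this
    nlinarith
  -- (3)
  have e4 : 2 * (1 - σ) ≤ r * (1 + 2 * σ) := by
    have f1 := mul_le_mul_of_nonneg_left h3 hpa.le
    rw [hp] at f1
    have f2 : a * b ≤ (σ - r / 2) ^ 2 := by
      have := sq_nonneg (a - b)
      have e : σ - r / 2 = (a + b) / 2 := by linarith
      rw [e]; nlinarith
    have f3 : 1 ≤ (1 + r) * (a * b) + r * (1 + (a + b)) := by nlinarith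
    have f4 := mul_le_mul_of_nonneg_left f2 (by linarith : 0 ≤ 1 + r)
    have f5 : a + b = 2 * σ - r := by linarith
    rw [f5] at f3
    have f6 : 0 ≤ (σ - r / 2 + 1) * (σ - r / 2 - 1 + r * (σ - r / 2 + 1)) := by nlinarith
    have f7 : 0 < σ - r / 2 + 1 := by
      have : 0 ≤ a + b := by linarith
      linarith
    have f8 := nonneg_of_mul_nonneg_right f6 f7
    nlinarith
  refine ⟨?_, e2, e4⟩
  -- exclude the large root
  by_contra hcon
  push Not at hcon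
  obtain ⟨y, hy⟩ : ∃ y, y = σ - a := ⟨_, rfl⟩
  have hy0 : 0 ≤ y := by linarith
  have hy1 : y ≤ 1 - σ := by linarith
  have ha : a = σ - y := by linarith
  obtain ⟨Q, hQ⟩ : ∃ Q, Q = σ ^ 2 - y ^ 2 := ⟨_, rfl⟩
  have hQa : a * (2 * σ - a) = Q := by rw [ha, hQ]; ring
  rw [hQa] at e3
  -- the quadratic function
  have g1 : Q + r * (2 * Q - a + 2 * σ) - r ^ 2 * (1 + 2 * a) - 1 ≤ 0 := by
    have : a * b = Q - r * a := by rw [← hQa, hb]; ring
    rw [this] at e1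
    have f5 : a + b = 2 * σ - r := by linarith
    rw [f5] at e1
    nlinarith
  -- at `σ / 2`
  have g2 : 0 ≤ Q + σ / 2 * (2 * Q - a + 2 * σ) - (σ / 2) ^ 2 * (1 + 2 * a) - 1 := by
    have f1 : Q + σ / 2 * (2 * Q - a + 2 * σ) - (σ / 2) ^ 2 * (1 + 2 * a) - 1 =
        (1 + σ) * (a * (3 * σ / 2 - a)) + 3 * σ ^ 2 / 4 - 1 := by
      rw [← hQa]; ring
    have f2 : σ ^ 2 / 2 ≤ a * (3 * σ / 2 - a) := by
      have : 0 ≤ (a - σ / 2) * (σ - a) := mul_nonneg (by linarith) (by linarith)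
      nlinarith
    have f3 := mul_le_mul_of_nonneg_left f2 (by linarith : 0 ≤ 1 + σ)
    have f4 : (79 / 100 : ℝ) ^ 2 ≤ σ ^ 2 := pow_le_pow_left₀ (by norm_num) hσ 2
    have f5 : (79 / 100 : ℝ) ^ 3 ≤ σ ^ 3 := pow_le_pow_left₀ (by norm_num) hσ 3
    rw [f1]
    norm_num at f4 f5
    nlinarith
  -- at `1 - Q`
  have g3 : 0 < -2 + 3 * Q - 3 * a + 2 * σ + 2 * Q * a := by
    have f1 : -2 + 3 * Q - 3 * a + 2 * σ + 2 * Q * a =
        (-2 + 3 * σ ^ 2 - σ + 2 * σ ^ 3) + y * ((3 - 2 * σ ^ 2) - y * (3 + 2 * σ)) +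
          2 * y ^ 3 := by
      rw [hQ, ha]; ring
    have f2 : y * (3 + 2 * σ) ≤ 3 - 2 * σ ^ 2 := by
      have := mul_le_mul_of_nonneg_right hy1 (by linarith : 0 ≤ 3 + 2 * σ)
      nlinarith
    have f3 : 0 ≤ y * ((3 - 2 * σ ^ 2) - y * (3 + 2 * σ)) := mul_nonneg hy0 (by linarith)
    have f4 : 0 ≤ 2 * y ^ 3 := by positivity
    have f5 : 0 < -2 + 3 * σ ^ 2 - σ + 2 * σ ^ 3 := by
      have f6 : (79 / 100 : ℝ) * σ ≤ σ ^ 2 := by nlinarith
      have f7 : (79 / 100 : ℝ) ^ 2 * σ ≤ σ ^ 3 := by nlinarith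
      norm_num at f7
      linarith
    rw [f1]; linarith
  have hQ1 : 0 < 1 - Q := by linarith
  have g4 : 0 < (1 - Q) * (-2 + 3 * Q - 3 * a + 2 * σ + 2 * Q * a) * (r - σ / 2) :=
    mul_pos (mul_pos hQ1 g3) (by linarith)
  have g5 : 0 ≤ (Q + σ / 2 * (2 * Q - a + 2 * σ) - (σ / 2) ^ 2 * (1 + 2 * a) - 1) *
      (1 - Q - r) := mul_nonneg g2 (by linarith)
  have g6 : 0 ≤ (1 + 2 * a) * ((r - σ / 2) * ((1 - Q - r) * (1 - Q - σ / 2))) :=
    mul_nonneg (by linarith) (mul_nonneg (by linarith) (mul_nonneg (by linarith) (by linarith)))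
  have g7 : (Q + r * (2 * Q - a + 2 * σ) - r ^ 2 * (1 + 2 * a) - 1) * (1 - Q - σ / 2) =
      (Q + σ / 2 * (2 * Q - a + 2 * σ) - (σ / 2) ^ 2 * (1 + 2 * a) - 1) * (1 - Q - r) +
      (1 - Q) * (-2 + 3 * Q - 3 * a + 2 * σ + 2 * Q * a) * (r - σ / 2) +
      (1 + 2 * a) * ((r - σ / 2) * ((1 - Q - r) * (1 - Q - σ / 2))) := by ring
  have g8 := mul_nonpos_of_nonpos_of_nonneg g1 (by linarith : 0 ≤ 1 - Q - σ / 2)
  linarith

/-- bounds for the remainder `r`, in terms of the weights -/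
theorem rest_facts (h : Norm x) {i j : Fin q} (hij : i ≠ j) (hi : ∀ l, x l ≤ x i)
    (hj : ∀ l, l ≠ i → x l ≤ x j) (h2 : 2 * (x i - ta x) ≤ 1 - ta x)
    (hτ : 29 / 50 ≤ ta x) :
    0 ≤ 1 + ta x - x i - x j ∧
    (∀ l ∈ (univ.erase i).erase j, x l ≤ 1 + ta x - x i - x j) ∧
    ∑ l ∈ (univ.erase i).erase j, x l = 1 + ta x - x i - x j ∧
    1 + ta x - x i - x j ≤ (1 + ta x) / 4 ∧
    (2 + ta x) * ((1 + ta x - x i - x j) * ((1 + ta x) / 2 - (1 + ta x - x i - x j))) ≤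
      1 - ((1 + ta x) / 2) ^ 2 ∧
    1 - ta x ≤ (1 + ta x - x i - x j) * (2 + ta x) := by
  have haτ := ta_le h hi
  have hS : ∑ l, x l = 1 + ta x := by rw [ta]; ring
  rw [split_two x hij] at hS
  set r := ∑ l ∈ (univ.erase i).erase j, x l with hr
  have hrr : 1 + ta x - x i - x j = r := by linarith
  rw [hrr]
  have hr0 : 0 ≤ r := sum_nonneg fun l _ => h.nonneg l
  have hxr : ∀ l ∈ (univ.erase i).erase j, x l ≤ r := fun l hl =>
    single_le_sum (f := x) (fun l _ => h.nonneg l) hl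
  have hp := h.pp_sum
  rw [split_two _ hij] at hp
  set p := ∑ l ∈ (univ.erase i).erase j, pp x l with hpdef
  have f1 : (1 + x i) * (1 + x j) * p = 1 - x i * x j := by
    have e : p = 1 - pp x i - pp x j := by linarith
    rw [e]
    have e1 := h.mul_pp i
    have e2 := h.mul_pp j
    have e3 : (1 + x i) * (1 + x j) * (1 - pp x i - pp x j) =
      (1 + x i) * (1 + x j) - (1 + x j) * ((1 + x i) * pp x i) -
        (1 + x i) * ((1 + x j) * pp x j) := by ring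
    rw [e3, e1, e2]; ring
  have hle : ∀ b : ℝ, (∀ l ∈ (univ.erase i).erase j, x l ≤ b) → r ≤ (1 + b) * p := by
    intro b hb
    rw [hr, hpdef, mul_sum]
    refine sum_le_sum fun l hl => ?_
    have e1 := h.mul_pp l
    have e2 := mul_le_mul_of_nonneg_right (hb l hl) (h.pp_nonneg l)
    linarith
  have f2 : r ≤ (1 + r) * p := hle r hxr
  have f3 : r ≤ (1 + x j) * p := hle (x j) fun l hl => hj l (by
    have := (mem_erase.1 (mem_erase.1 hl).2).1
    exact this)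
  have f4 : p ≤ r := by
    rw [hr, hpdef]
    refine sum_le_sum fun l _ => ?_
    have e1 := h.mul_pp l
    have e2 := mul_nonneg (h.nonneg l) (h.pp_nonneg l)
    linarith
  have key := rest_bounds (a := x i) (b := x j) (r := r) (p := p) (σ := (1 + ta x) / 2)
    (h.nonneg j) (by linarith) (hi j) (by linarith) (by linarith) hr0 (by linarith)
    f1 f2 f3 f4
  obtain ⟨k1, k2, k3⟩ := key
  refine ⟨hr0, hxr, rfl, by linarith, ?_, ?_⟩
  · have e : 1 + 2 * ((1 + ta x) / 2) = 2 + ta x := by ring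
    rw [e] at k2
    exact k2
  · have e : 1 + 2 * ((1 + ta x) / 2) = 2 + ta x := by ring
    rw [e] at k3
    linarith

/-- the abstract form of region B -/
theorem regionB (h : Norm x) {i j : Fin q} (hij : i ≠ j) (hi : ∀ l, x l ≤ x i)
    (h2 : 2 * (x i - ta x) ≤ 1 - ta x) (hτ : 29 / 50 ≤ ta x) {s g n K hh r : ℝ}
    (hs : s = 1 / (1 + ta x)) (hhh : hh = (1 - ta x) / 2) (hr : r = 1 + ta x - x i - x j)
    (hr0 : 0 ≤ r)
    (hxr : ∀ l ∈ (univ.erase i).erase j, x l ≤ r)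
    (hsum : ∑ l ∈ (univ.erase i).erase j, x l = r)
    (hK : ∀ l, HH x ^ 2 * kk x l ^ 2 ≤ 2 * K)
    (hc3 : 0 ≤ c3 s)
    (hg0 : 0 ≤ g) (hg1 : -c2 s + K + c3 s * hh + c4 s * hh ^ 2 + 8 / 15 * hh ^ 3 ≤ g)
    (hn0 : 0 ≤ n) (hn : ∀ l ∈ (univ.erase i).erase j,
      n ≤ FF s (x l - ta x) - HH x ^ 2 * ff x l ^ 2 / 2)
    (hfin : g * (hh ^ 2 + (hh - r) ^ 2) * (1 + r) ^ 2 ≤ 4 * (r * n)) :
    HH x ^ 2 * E x (fun i => ff x i ^ 2) ≤ 2 * E x (fun i => FF s (x i - ta x)) := by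
  have haτ := ta_le h hi
  have hτ0 : 0 ≤ ta x := by linarith
  have hS0 : 0 < 1 + ta x := by linarith
  have hs0 : 0 < s := by rw [hs]; positivity
  have hsS : s * (1 + ta x) = 1 := by rw [hs]; field_simp
  have hs1 : s ≤ 1 := by nlinarith
  have hhh0 : 0 ≤ hh := by rw [hhh]; linarith
  have hhh1 : hh ≤ 1 / 4 := by rw [hhh]; linarith
  have hc4 : 0 ≤ c4 s := by rw [c4]; positivity
  have hK0 : 0 ≤ K := by
    have := hK i
    have := mul_nonneg (sq_nonneg (HH x)) (sq_nonneg (kk x i))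
    linarith
  -- the two largest
  have hbig : ∀ l, -(g * (x l - ta x) ^ 2) ≤ FF s (x l - ta x) - HH x ^ 2 * ff x l ^ 2 / 2 := by
    intro l
    have hff : HH x ^ 2 * ff x l ^ 2 = (x l - ta x) ^ 2 * (HH x ^ 2 * kk x l ^ 2) := by
      rw [ff_eq]; ring
    have e4 := mul_le_mul_of_nonneg_left (hK l) (sq_nonneg (x l - ta x))
    rw [hff]
    rcases le_total (x l) (ta x) with hl | hl
    · have e1 : s * (1 + (ta x - x l)) ≤ 1 := by
        rw [← hsS]; exact mul_le_mul_of_nonneg_left (by linarith [h.nonneg l]) hs0.le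
      have e2 := FF_far hs0 (by linarith : 0 ≤ ta x - x l) e1
      have e3 : -(ta x - x l) = x l - ta x := by ring
      rw [e3] at e2
      have e5 : 0 ≤ s * (2 - s) / 3 * (ta x - x l) ^ 3 :=
        mul_nonneg (div_nonneg (mul_nonneg hs0.le (by linarith)) (by norm_num))
          (pow_nonneg (by linarith) 3)
      have e6 : 0 ≤ (c3 s * hh + c4 s * hh ^ 2 + 8 / 15 * hh ^ 3) * (x l - ta x) ^ 2 := by
        positivity
      have e7 := mul_le_mul_of_nonneg_right hg1 (sq_nonneg (x l - ta x))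
      have e8 : (ta x - x l) ^ 2 = (x l - ta x) ^ 2 := by ring
      rw [e8] at e2
      nlinarith
    · have hl2 : x l - ta x ≤ hh := by rw [hhh]; have := hi l; linarith
      have hl0 : 0 ≤ x l - ta x := by linarith
      have e2 := FF_pos (g := 8 / 15) hs0 hl0 (by linarith) (by linarith)
      have e7 := mul_le_mul_of_nonneg_right hg1 (sq_nonneg (x l - ta x))
      have e5 : c3 s * (x l - ta x) ≤ c3 s * hh := mul_le_mul_of_nonneg_left hl2 hc3
      have e6 : c4 s * (x l - ta x) ^ 2 ≤ c4 s * hh ^ 2 :=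
        mul_le_mul_of_nonneg_left (pow_le_pow_left₀ hl0 hl2 2) hc4
      have e8 : 8 / 15 * (x l - ta x) ^ 3 ≤ 8 / 15 * hh ^ 3 :=
        mul_le_mul_of_nonneg_left (pow_le_pow_left₀ hl0 hl2 3) (by norm_num)
      have e9 := mul_le_mul_of_nonneg_left (add_le_add (add_le_add e5 e6) e8)
        (sq_nonneg (x l - ta x))
      nlinarith
  have hbig' : ∀ l, -(1 / 4 * (g * (x l - ta x) ^ 2)) ≤
      rho x l * (FF s (x l - ta x) - HH x ^ 2 * ff x l ^ 2 / 2) := by
    intro l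
    have e1 := mul_le_mul_of_nonneg_left (hbig l) (h.rho_nonneg l)
    have e2 : rho x l * (g * (x l - ta x) ^ 2) ≤ 1 / 4 * (g * (x l - ta x) ^ 2) :=
      mul_le_mul_of_nonneg_right (rho_le_quarter h l) (by positivity)
    linarith
  -- the others
  have hsmall : r * n ≤ (1 + r) ^ 2 * ∑ l ∈ (univ.erase i).erase j,
      rho x l * (FF s (x l - ta x) - HH x ^ 2 * ff x l ^ 2 / 2) := by
    have e0 : r * n = ∑ l ∈ (univ.erase i).erase j, x l * n := by
      rw [← sum_mul, hsum]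
    rw [e0, mul_sum]
    refine sum_le_sum fun l hl => ?_
    have e1 := mul_le_mul_of_nonneg_left (hn l hl) (h.rho_nonneg l)
    have e2 : x l ≤ (1 + r) ^ 2 * rho x l := by
      rw [← h.rho_mul_sq l, mul_comm]
      refine mul_le_mul_of_nonneg_right ?_ (h.rho_nonneg l)
      exact pow_le_pow_left₀ (h.pos l).le (by linarith [hxr l hl]) 2
    have e3 := mul_le_mul_of_nonneg_right e2 hn0
    have e4 := mul_le_mul_of_nonneg_left e1 (sq_nonneg (1 + r))
    linarith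
  have ht1 : x i - ta x ≤ hh := by rw [hhh]; linarith
  have ht2 : x j - ta x ≤ hh := by rw [hhh]; have := hi j; linarith
  have ht : (x i - ta x) ^ 2 + (x j - ta x) ^ 2 ≤ hh ^ 2 + (hh - r) ^ 2 := by
    obtain ⟨α, hα⟩ : ∃ α, α = hh - (x i - ta x) := ⟨_, rfl⟩
    obtain ⟨β, hβ⟩ : ∃ β, β = hh - (x j - ta x) := ⟨_, rfl⟩
    have e1 : r = α + β := by rw [hα, hβ, hr, hhh]; ring
    have e2 : x i - ta x = hh - α := by linarith
    have e3 : x j - ta x = hh - β := by linarith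
    rw [e1, e2, e3]
    have : 0 ≤ α * β := mul_nonneg (by linarith) (by linarith)
    nlinarith
  have htot : 0 ≤ ∑ l, rho x l * (FF s (x l - ta x) - HH x ^ 2 * ff x l ^ 2 / 2) := by
    rw [split_two _ hij]
    set ZZ := ∑ l ∈ (univ.erase i).erase j,
      rho x l * (FF s (x l - ta x) - HH x ^ 2 * ff x l ^ 2 / 2) with hZZ
    have e1 := hbig' i
    have e2 := hbig' j
    have e3 : 0 < (1 + r) ^ 2 := by positivity
    have e4 : (1 + r) ^ 2 * (1 / 4 * (g * (hh ^ 2 + (hh - r) ^ 2))) ≤ (1 + r) ^ 2 * ZZ := by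
      linarith
    have e5 := le_of_mul_le_mul_left e4 e3
    have e6 := mul_le_mul_of_nonneg_left ht hg0
    linarith
  have h10 : ∑ l, rho x l * (FF s (x l - ta x) - HH x ^ 2 * ff x l ^ 2 / 2) =
      E x (fun i => FF s (x i - ta x)) - HH x ^ 2 / 2 * E x (fun i => ff x i ^ 2) := by
    rw [E, E, mul_sum, ← sum_sub_distrib]
    exact sum_congr rfl fun j _ => by ring
  rw [h10] at htot
  linarith

end Pool.Agent.Helper56.HLA.Half
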