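import Pool.Agent.Helper56.HLA.Half.RegB
import Pool.Agent.Helper56.HLA.Half.RegA2
import Pool.Agent.Helper56.HLA.Half.PolyB

/-!
Region B: the total weight is at least 1.58.
-/

set_option autoImplicit false

namespace Pool.Agent.Helper56.HLA.Half

open Pool.Agent.Helper6.HL Pool.Agent.Helper66.HL Pool.Agent.Helper56.HLA Finset

variable {q : ℕ} {x : Fin q → ℝ}

theorem mono0 {v w τ b2 b3 b4 : ℝ} (hv : 0 ≤ v) (hvw : v ≤ w) (hw : w ≤ τ) (h2 : 0 ≤ b2)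
    (h4 : 0 ≤ b4) (h3 : 4 * τ * b4 ≤ 3 * b3) :
    b2 * v ^ 2 + b3 * v ^ 3 - b4 * v ^ 4 ≤ b2 * w ^ 2 + b3 * w ^ 3 - b4 * w ^ 4 := by
  have hw0 : 0 ≤ w := hv.trans hvw
  have e1 : 4 * w * b4 ≤ 3 * b3 :=
    (mul_le_mul_of_nonneg_right (by linarith) h4).trans h3
  have e2 : 0 ≤ w ^ 2 + w * v + v ^ 2 := by positivity
  have e3 := mul_le_mul_of_nonneg_right e1 e2
  have e4 : 0 ≤ w ^ 3 + w ^ 2 * v + w * v ^ 2 - 3 * v ^ 3 := by
    have f1 : v ^ 3 ≤ w ^ 3 := pow_le_pow_left₀ hv hvw 3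
    have f2 : v ^ 2 * v ≤ w ^ 2 * v := mul_le_mul_of_nonneg_right (pow_le_pow_left₀ hv hvw 2) hv
    have f3 : v * v ^ 2 ≤ w * v ^ 2 := mul_le_mul_of_nonneg_right hvw (sq_nonneg v)
    nlinarith
  have e5 := mul_nonneg h4 e4
  have e6 : 0 ≤ b2 * (w + v) := by positivity
  have e7 : 0 ≤ (w - v) * (b2 * (w + v) + b3 * (w ^ 2 + w * v + v ^ 2) -
      b4 * (w ^ 3 + w ^ 2 * v + w * v ^ 2 + v ^ 3)) := by
    refine mul_nonneg (by linarith) ?_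
    nlinarith
  nlinarith

theorem mono1 {v w b2 b3 : ℝ} (hv : 0 ≤ v) (hvw : v ≤ w) (h3 : 0 ≤ b3)
    (h2 : 0 ≤ b2 + 3 / 2 * b3 * v) :
    b2 * v ^ 2 + b3 * v ^ 3 ≤ b2 * w ^ 2 + b3 * w ^ 3 := by
  have hw0 : 0 ≤ w := hv.trans hvw
  have e1 : 3 / 2 * v * (w + v) ≤ w ^ 2 + w * v + v ^ 2 := by nlinarith [sq_nonneg (w - v)]
  have e2 := mul_le_mul_of_nonneg_left e1 h3
  have e3 := mul_nonneg h2 (add_nonneg hw0 hv)
  have e7 : 0 ≤ (w - v) * (b2 * (w + v) + b3 * (w ^ 2 + w * v + v ^ 2)) := by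
    refine mul_nonneg (by linarith) ?_
    nlinarith
  nlinarith

/-- excluding `r > ρ` -/
theorem r_le {r ρ σ c m : ℝ} (hr : r ≤ σ / 2) (hρ : ρ < σ / 2) (hc : 0 < c)
    (h1 : c * (r * (σ - r)) ≤ m) (h2 : m ≤ c * (ρ * (σ - ρ))) : r ≤ ρ := by
  by_contra hcon
  push Not at hcon
  have e1 : 0 < c * ((r - ρ) * (σ - r - ρ)) :=
    mul_pos hc (mul_pos (by linarith) (by linarith))
  nlinarith

/-- common facts of region B -/
theorem regB_common (h : Norm x) {i j : Fin q} (hi : ∀ l, x l ≤ x i)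
    (h2 : 2 * (x i - ta x) ≤ 1 - ta x) (hτ : 29 / 50 ≤ ta x)
    {w t r : ℝ} (ht : t = ta x) (hw : 0 ≤ w * (3 + t) ^ 2 - (3 - t) ^ 2)
    (hr : r = 1 + t - x i - x j) (hr0 : 0 ≤ r)
    (hM1 : r ^ 3 ≤ t * ((1 - t) / 2) * ((1 + t) / 2 + r))
    (hM2 : 2 * ((3 - t) * (t * ((1 + t) / 2 + r))) ≤ 3 + t) :
    HH x ^ 2 ≤ w ∧ (∀ l, HH x ^ 2 * kk x l ^ 2 ≤ 2 * (w * ((1 + t) / 2) ^ 6 / 2)) ∧
    (∀ l, x l ≤ r → HH x ^ 2 * kk x l ^ 2 ≤ 2 * (((1 - t) / 2) ^ 2 / 8)) := by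
  have haτ := ta_le h hi
  have hH := HH_pos h
  have hHle := HH_le h i hi h2
  rw [← ht] at haτ hHle h2 hτ
  have ha0 := h.nonneg i
  have h3t : 0 < (3 + t) ^ 2 := by positivity
  have hH2 : HH x ^ 2 * (3 + t) ^ 2 ≤ (3 - t) ^ 2 := by
    have := pow_le_pow_left₀ (by positivity) hHle 2
    nlinarith
  have hH3 : HH x ^ 2 ≤ w := by
    have e2 : HH x ^ 2 * (3 + t) ^ 2 ≤ w * (3 + t) ^ 2 := by linarith
    exact le_of_mul_le_mul_right e2 h3t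
  have hw0 : 0 ≤ w := (sq_nonneg _).trans hH3
  have hxσ : x i ≤ (1 + t) / 2 := by linarith
  refine ⟨hH3, fun l => ?_, fun l hl => ?_⟩
  · have e1 := kk_sq h hi l
    have e3 : (x i ^ 3) ^ 2 ≤ (((1 + t) / 2) ^ 3) ^ 2 :=
      pow_le_pow_left₀ (by positivity) (pow_le_pow_left₀ ha0 hxσ 3) 2
    have e4 := mul_le_mul hH3 (e1.trans e3) (sq_nonneg _) hw0
    refine e4.trans (le_of_eq ?_)
    ring
  · obtain ⟨M, hM⟩ : ∃ M, M = t * ((1 - t) / 2) * ((1 + t) / 2 + r) := ⟨_, rfl⟩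
    have hh0 : 0 ≤ (1 - t) / 2 := by linarith
    have hM0 : 0 ≤ M := by
      rw [hM]; exact mul_nonneg (mul_nonneg (by linarith) hh0) (by linarith)
    have e1 := kk_sq_small h (a := x i) (b := r) (M := M) hi l hl
      (by rw [hM]; exact hM1) (by
        rw [hM, ← ht]
        have f1 : t * (x i - t) ≤ t * ((1 - t) / 2) :=
          mul_le_mul_of_nonneg_left (by linarith) (by linarith)
        exact mul_le_mul f1 (by linarith) (by linarith)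
          (mul_nonneg (by linarith) (by linarith)))
    have e2 : HH x * M ≤ (1 - t) / 2 / 2 := by
      have f1 : (3 + t) * (HH x * M) ≤ (3 + t) * ((1 - t) / 2 / 2) := by
        have g1 := mul_le_mul_of_nonneg_right hHle hM0
        have g2 := mul_le_mul_of_nonneg_left hM2 hh0
        rw [hM] at g1 ⊢
        nlinarith
      exact le_of_mul_le_mul_left f1 (by linarith)
    have e3 := pow_le_pow_left₀ (mul_nonneg hH.le hM0) e2 2
    have e4 := mul_le_mul_of_nonneg_left e1 (sq_nonneg (HH x))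
    refine e4.trans ?_
    have e5 : HH x ^ 2 * M ^ 2 = (HH x * M) ^ 2 := by ring
    rw [e5]
    refine e3.trans (le_of_eq ?_)
    ring

theorem regB1 (h : Norm x) {i j : Fin q} (hij : i ≠ j) (hi : ∀ l, x l ≤ x i)
    (hj : ∀ l, l ≠ i → x l ≤ x j) (h2 : 2 * (x i - ta x) ≤ 1 - ta x)
    (hτ1 : 29 / 50 ≤ ta x) (hτ2 : ta x ≤ 7 / 10) :
    HH x ^ 2 * E x (fun i => ff x i ^ 2) ≤
      2 * E x (fun i => FF (1 / (1 + ta x)) (x i - ta x)) := by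
  obtain ⟨k1, k2, k3, k4, k5, k6⟩ := rest_facts h hij hi hj h2 hτ1
  obtain ⟨t, ht⟩ : ∃ t, t = ta x := ⟨_, rfl⟩
  have h2' := h2
  have hτ1' := hτ1
  rw [← ht] at h2' hτ1' hτ2 k1 k2 k3 k4 k5 k6
  have hS : 0 < 1 + t := by linarith
  obtain ⟨s, hs⟩ : ∃ s, s = 1 / (1 + t) := ⟨_, rfl⟩
  have hst : s = 1 / (1 + ta x) := by rw [hs, ht]
  rw [← hst]
  have hs0 : 0 < s := by rw [hs]; positivity
  have hsS : s * (1 + t) = 1 := by rw [hs]; field_simp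
  have hs1 : s ≤ 1 := by nlinarith
  obtain ⟨r, hr⟩ : ∃ r, r = 1 + t - x i - x j := ⟨_, rfl⟩
  rw [← hr] at k1 k2 k3 k4 k5 k6
  -- `r` bounds
  have hrlo : 10 / 27 * (1 - t) ≤ r := by
    have := mul_le_mul_of_nonneg_left (by linarith : 2 + t ≤ 27 / 10) k1
    linarith
  have hrhi : r ≤ 1001 / 1000 - 12 / 10 * t := by
    refine r_le (σ := (1 + t) / 2) (c := 2 + t) (m := 1 - ((1 + t) / 2) ^ 2) (by linarith)
      (by linarith) (by linarith) k5 ?_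
    have := polyR1 hτ1' hτ2
    linarith
  have hM1 : r ^ 3 ≤ t * ((1 - t) / 2) * ((1 + t) / 2 + r) := by
    have e1 : r ^ 3 ≤ (305 / 1000) ^ 3 := pow_le_pow_left₀ k1 (by linarith) 3
    have e2 : (29 / 50 : ℝ) * (15 / 100) ≤ t * ((1 - t) / 2) :=
      mul_le_mul hτ1' (by linarith) (by norm_num) (by linarith)
    have e3 : (29 / 50 : ℝ) * (15 / 100) * (79 / 100) ≤ t * ((1 - t) / 2) * ((1 + t) / 2 + r) :=
      mul_le_mul e2 (by linarith) (by norm_num) (by nlinarith)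
    norm_num at e1 e3
    linarith
  have hM2 : 2 * ((3 - t) * (t * ((1 + t) / 2 + r))) ≤ 3 + t := by
    have e1 := polyJ1 hτ1' hτ2
    have e2 : t * ((1 + t) / 2 + r) ≤ t * (1501 / 1000 - 7 / 10 * t) :=
      mul_le_mul_of_nonneg_left (by linarith) (by linarith)
    have e3 := mul_le_mul_of_nonneg_left e2 (by linarith : 0 ≤ 3 - t)
    linarith
  obtain ⟨w, hw⟩ : ∃ w, w = 7995 / 10000 - 588 / 1000 * t := ⟨_, rfl⟩
  have hwH := polyHB1 hτ1' hτ2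
  rw [← hw] at hwH
  obtain ⟨m1, m2, m3⟩ := regB_common h hi h2 hτ1 ht hwH hr k1 hM1 hM2
  -- the polynomials
  obtain ⟨D, hD⟩ : ∃ D, D = 12 * (1 + t) ^ 4 := ⟨_, rfl⟩
  have hD0 : 0 < D := by rw [hD]; positivity
  obtain ⟨A2, hA2⟩ : ∃ A, A = 6 * (1 + t) ^ 2 * (1 - 2 * t ^ 2) := ⟨_, rfl⟩
  obtain ⟨A3, hA3⟩ : ∃ A, A = 4 * (1 + t) * (2 * (1 + t) ^ 3 - 1) := ⟨_, rfl⟩
  obtain ⟨A4, hA4⟩ : ∃ A, A = 3 * (2 * (1 + t) ^ 4 + 1) := ⟨_, rfl⟩
  have c2e : c2 s = A2 / D := by rw [c2_eq hS hs, hA2, hD]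
  have c3e : c3 s = A3 / D := by rw [c3_eq hS hs, hA3, hD]
  have c4e : c4 s = A4 / D := by rw [c4_eq hS hs, hA4, hD]
  have q1 := polyC1 hτ1' hτ2
  have q2 := polyM1 hτ1' hτ2
  have q3 := polyG1 hτ1' hτ2
  have q4 := polyFin1 hτ1' hτ2 hrlo hrhi
  have q5 := polyN1 hτ1' hτ2 hrlo hrhi
  rw [← hA2, ← hD] at q1
  rw [← hA3, ← hA4] at q2
  have hD6 : 6 * (1 + t) ^ 4 = D / 2 := by rw [hD]; ring
  rw [← hw, ← hA2, ← hA3, ← hA4, ← hD, hD6] at q3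
  rw [← hw, ← hA2, ← hA3, ← hA4, ← hD, hD6] at q4
  rw [← hA2, ← hA3, ← hA4, ← hD] at q5
  obtain ⟨hh, hhh⟩ : ∃ hh, hh = (1 - t) / 2 := ⟨_, rfl⟩
  rw [← hhh] at q1 q3 q4 q5 m3
  obtain ⟨G, hG⟩ : ∃ G, G = -A2 + D / 2 * (w * ((1 + t) / 2) ^ 6) + A3 * hh + A4 * hh ^ 2 +
    D * (8 / 15 * hh ^ 3) := ⟨_, rfl⟩
  rw [← hG] at q3 q4
  obtain ⟨N, hN⟩ : ∃ N, N = A2 - D * (hh ^ 2 / 8) + A3 * (t - r) - A4 * (t - r) ^ 2 := ⟨_, rfl⟩
  rw [← hN] at q4 q5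
  have hA4' : 0 ≤ A4 := by rw [hA4]; positivity
  have hA3' : 0 ≤ A3 := by nlinarith [mul_nonneg (by linarith : 0 ≤ t) hA4']
  have htr : 0 ≤ t - r := by linarith
  refine regionB h hij hi h2 hτ1 (s := s) (g := G / D) (n := (t - r) ^ 2 * N / D)
    (K := w * ((1 + t) / 2) ^ 6 / 2) (hh := hh) (r := r) hst (by rw [← ht]; exact hhh)
    (by rw [← ht]; exact hr) k1 k2 k3 m2 (by rw [c3e]; positivity) (div_nonneg q3 hD0.le)
    ?_ (div_nonneg (mul_nonneg (sq_nonneg _) q5) hD0.le) ?_ ?_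
  · rw [c2e, c3e, c4e, hG]
    refine le_of_eq ?_
    field_simp
  · intro l hl
    have hxl := k2 l hl
    have hlt : x l ≤ t := by linarith
    have e0 : 0 ≤ t - x l := by linarith
    have e1 : s * (1 + (t - x l)) ≤ 1 := by
      rw [← hsS]; exact mul_le_mul_of_nonneg_left (by linarith [h.nonneg l]) hs0.le
    have e2 := FF_neg hs0 hs1 e0 e1
    have e3 : -(t - x l) = x l - ta x := by rw [ht]; ring
    rw [e3] at e2
    have hff : HH x ^ 2 * ff x l ^ 2 = (t - x l) ^ 2 * (HH x ^ 2 * kk x l ^ 2) := by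
      rw [ff_eq, ← ht]; ring
    have e4 := mul_le_mul_of_nonneg_left (m3 l hxl) (sq_nonneg (t - x l))
    rw [hff]
    have e5 := mono0 (v := t - r) (w := t - x l) (τ := t) (b2 := A2 / D - hh ^ 2 / 8)
      (b3 := A3 / D) (b4 := A4 / D) htr (by linarith) (by linarith [h.nonneg l])
      (by
        have : A2 / D - hh ^ 2 / 8 = (A2 - D * (hh ^ 2 / 8)) / D := by field_simp
        rw [this]; exact div_nonneg q1 hD0.le) (div_nonneg hA4' hD0.le) (by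
        rw [mul_div_assoc', mul_div_assoc', div_le_div_iff_of_pos_right hD0]
        linarith)
    have e6 : (t - r) ^ 2 * N / D = (A2 / D - hh ^ 2 / 8) * (t - r) ^ 2 + A3 / D * (t - r) ^ 3 -
        A4 / D * (t - r) ^ 4 := by
      rw [hN]; field_simp
    rw [e6]
    rw [c2e, c3e, c4e] at e2
    linarith
  · have e1 : G / D * (hh ^ 2 + (hh - r) ^ 2) * (1 + r) ^ 2 =
        (G * (hh ^ 2 + (hh - r) ^ 2) * (1 + r) ^ 2) / D := by ring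
    have e2 : 4 * (r * ((t - r) ^ 2 * N / D)) = (4 * (r * ((t - r) ^ 2 * N))) / D := by ring
    rw [e1, e2, div_le_div_iff_of_pos_right hD0]
    linarith

theorem regB2 (h : Norm x) {i j : Fin q} (hij : i ≠ j) (hi : ∀ l, x l ≤ x i)
    (hj : ∀ l, l ≠ i → x l ≤ x j) (h2 : 2 * (x i - ta x) ≤ 1 - ta x)
    (hτ1 : 7 / 10 ≤ ta x) :
    HH x ^ 2 * E x (fun i => ff x i ^ 2) ≤
      2 * E x (fun i => FF (1 / (1 + ta x)) (x i - ta x)) := by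
  have hτ3 : 29 / 50 ≤ ta x := by linarith
  have haτ := ta_le h hi
  obtain ⟨k1, k2, k3, k4, k5, k6⟩ := rest_facts h hij hi hj h2 hτ3
  obtain ⟨t, ht⟩ : ∃ t, t = ta x := ⟨_, rfl⟩
  have h2' := h2
  have hτ1' := hτ1
  rw [← ht] at h2' hτ1' haτ k1 k2 k3 k4 k5 k6
  have hτ2 : t ≤ 1 := by linarith
  have hS : 0 < 1 + t := by linarith
  obtain ⟨s, hs⟩ : ∃ s, s = 1 / (1 + t) := ⟨_, rfl⟩
  have hst : s = 1 / (1 + ta x) := by rw [hs, ht]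
  rw [← hst]
  have hs0 : 0 < s := by rw [hs]; positivity
  have hsS : s * (1 + t) = 1 := by rw [hs]; field_simp
  have hs1 : s ≤ 1 := by nlinarith
  obtain ⟨r, hr⟩ : ∃ r, r = 1 + t - x i - x j := ⟨_, rfl⟩
  rw [← hr] at k1 k2 k3 k4 k5 k6
  -- `r` bounds
  have hrlo : 1 / 3 * (1 - t) ≤ r := by
    have := mul_le_mul_of_nonneg_left (by linarith : 2 + t ≤ 3) k1
    linarith
  have hrhi : r ≤ (1 - t) / 2 := by
    refine r_le (σ := (1 + t) / 2) (c := 2 + t) (m := 1 - ((1 + t) / 2) ^ 2) (by linarith)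
      (by linarith) (by linarith) k5 ?_
    have e1 : 0 ≤ (1 - t) * (2 * t ^ 2 + 3 * t - 3) :=
      mul_nonneg (by linarith) (by nlinarith)
    nlinarith
  have hh0 : 0 ≤ (1 - t) / 2 := by linarith
  have hM1 : r ^ 3 ≤ t * ((1 - t) / 2) * ((1 + t) / 2 + r) := by
    have e1 : r ^ 3 ≤ ((1 - t) / 2) ^ 3 := pow_le_pow_left₀ k1 hrhi 3
    have e2 : ((1 - t) / 2) ^ 2 ≤ t * ((1 + t) / 2 + r) := by nlinarith
    have e3 := mul_le_mul_of_nonneg_left e2 hh0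
    nlinarith
  have hM2 : 2 * ((3 - t) * (t * ((1 + t) / 2 + r))) ≤ 3 + t := by
    have e2 : t * ((1 + t) / 2 + r) ≤ t * 1 :=
      mul_le_mul_of_nonneg_left (by linarith) (by linarith)
    have e3 := mul_le_mul_of_nonneg_left e2 (by linarith : 0 ≤ 3 - t)
    nlinarith
  obtain ⟨w, hw⟩ : ∃ w, w = 387 / 1000 - 137 / 300 * (t - 7 / 10) := ⟨_, rfl⟩
  have hwH := polyHB2 hτ1' hτ2
  rw [← hw] at hwH
  obtain ⟨m1, m2, m3⟩ := regB_common h hi h2 hτ3 ht hwH hr k1 hM1 hM2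
  -- the polynomials
  obtain ⟨D, hD⟩ : ∃ D, D = 12 * (1 + t) ^ 4 := ⟨_, rfl⟩
  have hD0 : 0 < D := by rw [hD]; positivity
  obtain ⟨A2, hA2⟩ : ∃ A, A = 6 * (1 + t) ^ 2 * (1 - 2 * t ^ 2) := ⟨_, rfl⟩
  obtain ⟨A3, hA3⟩ : ∃ A, A = 4 * (1 + t) * (2 * (1 + t) ^ 3 - 1) := ⟨_, rfl⟩
  obtain ⟨A4, hA4⟩ : ∃ A, A = 3 * (2 * (1 + t) ^ 4 + 1) := ⟨_, rfl⟩
  obtain ⟨B3, hB3⟩ : ∃ A, A = 4 * (1 + t) ^ 2 * (2 * (1 + t) - 1) := ⟨_, rfl⟩
  have c2e : c2 s = A2 / D := by rw [c2_eq hS hs, hA2, hD]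
  have c3e : c3 s = A3 / D := by rw [c3_eq hS hs, hA3, hD]
  have c4e : c4 s = A4 / D := by rw [c4_eq hS hs, hA4, hD]
  have b3e : s * (2 - s) / 3 = B3 / D := by
    rw [hB3, hD, hs]; field_simp; ring
  have q1 := polyC2 hτ1' hτ2
  have q3 := polyG2 hτ1' hτ2
  have q4 := polyFin2 hτ1' hτ2 hrlo hrhi
  have q5 := polyN2 hτ1' hτ2 hrlo hrhi
  have hD6 : 6 * (1 + t) ^ 4 = D / 2 := by rw [hD]; ring
  have hB6 : 6 * (1 + t) ^ 2 * (2 * (1 + t) - 1) = 3 / 2 * B3 := by rw [hB3]; ring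
  rw [← hA2, ← hD, hB6] at q1
  rw [← hw, ← hA2, ← hA3, ← hA4, ← hD, hD6] at q3
  rw [← hw, ← hA2, ← hA3, ← hA4, ← hD, hD6, ← hB3] at q4
  rw [← hA2, ← hD, ← hB3] at q5
  obtain ⟨hh, hhh⟩ : ∃ hh, hh = (1 - t) / 2 := ⟨_, rfl⟩
  rw [← hhh] at q1 q3 q4 q5 m3
  obtain ⟨G, hG⟩ : ∃ G, G = -A2 + D / 2 * (w * ((1 + t) / 2) ^ 6) + A3 * hh + A4 * hh ^ 2 +
    D * (8 / 15 * hh ^ 3) := ⟨_, rfl⟩
  rw [← hG] at q3 q4
  obtain ⟨N, hN⟩ : ∃ N, N = A2 - D * (hh ^ 2 / 8) + B3 * (t - r) := ⟨_, rfl⟩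
  rw [← hN] at q4 q5
  have hA3' : 0 ≤ A3 := by
    rw [hA3]
    refine mul_nonneg (by linarith) ?_
    have : (1 : ℝ) ^ 3 ≤ (1 + t) ^ 3 := pow_le_pow_left₀ (by norm_num) (by linarith) 3
    linarith
  have hB3' : 0 ≤ B3 := by
    rw [hB3]; exact mul_nonneg (by positivity) (by linarith)
  have htr : 0 ≤ t - r := by linarith
  refine regionB h hij hi h2 hτ3 (s := s) (g := G / D) (n := (t - r) ^ 2 * N / D)
    (K := w * ((1 + t) / 2) ^ 6 / 2) (hh := hh) (r := r) hst (by rw [← ht]; exact hhh)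
    (by rw [← ht]; exact hr) k1 k2 k3 m2 (by rw [c3e]; positivity) (div_nonneg q3 hD0.le)
    ?_ (div_nonneg (mul_nonneg (sq_nonneg _) q5) hD0.le) ?_ ?_
  · rw [c2e, c3e, c4e, hG]
    refine le_of_eq ?_
    field_simp
  · intro l hl
    have hxl := k2 l hl
    have hlt : x l ≤ t := by linarith
    have e0 : 0 ≤ t - x l := by linarith
    have e1 : s * (1 + (t - x l)) ≤ 1 := by
      rw [← hsS]; exact mul_le_mul_of_nonneg_left (by linarith [h.nonneg l]) hs0.le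
    have e2 := FF_far hs0 e0 e1
    have e3 : -(t - x l) = x l - ta x := by rw [ht]; ring
    rw [e3] at e2
    have hff : HH x ^ 2 * ff x l ^ 2 = (t - x l) ^ 2 * (HH x ^ 2 * kk x l ^ 2) := by
      rw [ff_eq, ← ht]; ring
    have e4 := mul_le_mul_of_nonneg_left (m3 l hxl) (sq_nonneg (t - x l))
    rw [hff]
    have e5 := mono1 (v := t - r) (w := t - x l) (b2 := A2 / D - hh ^ 2 / 8)
      (b3 := B3 / D) htr (by linarith) (div_nonneg hB3' hD0.le)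
      (by
        have e : A2 / D - hh ^ 2 / 8 + 3 / 2 * (B3 / D) * (t - r) =
          (A2 - D * (hh ^ 2 / 8) + 3 / 2 * B3 * (t - r)) / D := by field_simp
        rw [e]
        refine div_nonneg ?_ hD0.le
        have f1 : 3 / 2 * B3 * ((3 * t - 1) / 2) ≤ 3 / 2 * B3 * (t - r) :=
          mul_le_mul_of_nonneg_left (by linarith) (by positivity)
        linarith)
    have e6 : (t - r) ^ 2 * N / D = (A2 / D - hh ^ 2 / 8) * (t - r) ^ 2 +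
        B3 / D * (t - r) ^ 3 := by
      rw [hN]; field_simp
    rw [e6]
    rw [c2e, b3e] at e2
    linarith
  · have e1 : G / D * (hh ^ 2 + (hh - r) ^ 2) * (1 + r) ^ 2 =
        (G * (hh ^ 2 + (hh - r) ^ 2) * (1 + r) ^ 2) / D := by ring
    have e2 : 4 * (r * ((t - r) ^ 2 * N / D)) = (4 * (r * ((t - r) ^ 2 * N))) / D := by ring
    rw [e1, e2, div_le_div_iff_of_pos_right hD0]
    linarith

end Pool.Agent.Helper56.HLA.Half
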